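import Mathlib
import Pool.Agent.TH922.KC.Spec

/-!
# Very general complete intersections over `ℂ`

`DivX N X r d`: the integer `N` divides the degree of every curve on a very general complete intersection
of `r` hypersurfaces of the degrees `d` in the projective space with homogeneous coordinates `X`.
-/

set_option autoImplicit false

open MvPolynomial Pool.Agent.TH922.KC

namespace Pool.Agent.Q76.DV

/-- `N` divides the degrees of the curves on `g = 0` -/
def Good (N : ℕ) {X : Type} {r : ℕ} (g : Fin r → MvPolynomial X ℂ) : Prop :=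
  ∀ I : Ideal (MvPolynomial X ℂ), IsHom I → I.IsPrime →
    ringKrullDim (MvPolynomial X ℂ ⧸ I) = 2 → (∀ i, g i ∈ I) →
    ∃ K : ℕ, ∀ k : ℕ, K ≤ k → (N : ℤ) ∣ (hf I (k + 1) : ℤ) - (hf I k : ℤ)

/-- `N` divides the degrees of the curves on a very general complete intersection of the degrees `d` -/
def DivX (N : ℕ) (X : Type) (r : ℕ) (d : Fin r → ℕ) : Prop :=
  ∃ bad : ℕ → MvPolynomial (Σ i : Fin r, {μ : X →₀ ℕ // μ.degree = d i}) ℂ,
    (∀ j, bad j ≠ 0) ∧
    ∀ f : Fin r → MvPolynomial X ℂ,
      (∀ i, f i ∈ homogeneousSubmodule X ℂ (d i)) →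
      (∀ j, MvPolynomial.eval (fun x => coeff x.2.1 (f x.1)) (bad j) ≠ 0) → Good N f

/-- forms of the degrees `d` with coefficients algebraically independent over `K` -/
def Gen (K : Subfield ℂ) {X : Type} {r : ℕ} (d : Fin r → ℕ) (f : Fin r → MvPolynomial X ℂ) : Prop :=
  (∀ i, (f i).IsHomogeneous (d i)) ∧
    AlgebraicIndependent K
      (fun x : (Σ i : Fin r, {μ : X →₀ ℕ // μ.degree = d i}) => coeff x.2.1 (f x.1))

theorem countable_closure {F : Type*} [Field F] {s : Set F} (hs : s.Countable) :
    Countable (Subfield.closure s) := by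
  rw [← Cardinal.mk_le_aleph0_iff]
  refine (Subfield.cardinalMk_closure_le_max _).trans (max_le ?_ le_rfl)
  rw [Cardinal.mk_le_aleph0_iff]
  exact hs.to_subtype

theorem Gen.mono {K K' : Subfield ℂ} (h : K ≤ K') {X : Type} {r : ℕ} {d : Fin r → ℕ}
    {f : Fin r → MvPolynomial X ℂ} (hf : Gen K' d f) : Gen K d f := by
  refine ⟨hf.1, ?_⟩
  rw [algebraicIndependent_iff]
  intro p hp
  have h1 := (algebraicIndependent_iff.1 hf.2) (MvPolynomial.map (Subfield.inclusion h) p) (by
    rw [← hp]
    change eval₂ _ _ _ = eval₂ _ _ _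
    rw [eval₂_map]
    rfl)
  exact (map_eq_zero_iff _ (MvPolynomial.map_injective _ (Subfield.inclusion h).injective)).1 h1

theorem dv_iff {N : ℕ} {X : Type} [Finite X] {r : ℕ} {d : Fin r → ℕ} :
    DivX N X r d ↔ ∃ K : Subfield ℂ, Countable K ∧ ∀ f : Fin r → MvPolynomial X ℂ, Gen K d f → Good N f := by
  classical
  constructor
  · rintro ⟨bad, hbad, h⟩
    let s : Set ℂ := ⋃ j, ((bad j).coeffs : Set ℂ)
    have hs : s.Countable := Set.countable_iUnion fun j => (Finset.finite_toSet _).countable
    refine ⟨Subfield.closure s, countable_closure hs, fun f hf => h f hf.1 fun j h0 => ?_⟩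
    have h1 : bad j ∈ Set.range (MvPolynomial.map (Subfield.closure s).subtype) := by
      rw [mem_range_map_iff_coeffs_subset]
      intro x hx
      exact ⟨⟨x, Subfield.subset_closure (Set.mem_iUnion.2 ⟨j, hx⟩)⟩, rfl⟩
    obtain ⟨b, hb⟩ := h1
    have h2 := (algebraicIndependent_iff.1 hf.2) b (by
      rw [← h0, ← hb, MvPolynomial.eval_map]
      rfl)
    exact hbad j (by rw [← hb, h2, map_zero])
  · rintro ⟨K, hK, h⟩
    set σ := (Σ i : Fin r, {μ : X →₀ ℕ // μ.degree = d i}) with hσ
    have hfin : ∀ i, Finite {μ : X →₀ ℕ // μ.degree = d i} := fun i =>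
      Finsupp.finite_of_degree_eq (σ := X) (d i)
    have hcp : Countable (MvPolynomial σ K) := by
      rw [← Cardinal.mk_le_aleph0_iff]
      refine MvPolynomial.cardinalMk_le_max.trans ?_
      simp only [max_le_iff, le_refl, and_true]
      exact ⟨Cardinal.mk_le_aleph0_iff.mpr hK, Cardinal.mk_le_aleph0_iff.mpr inferInstance⟩
    have hne : Nonempty {p : MvPolynomial σ K // p ≠ 0} := ⟨⟨1, one_ne_zero⟩⟩
    obtain ⟨en, hen⟩ := exists_surjective_nat {p : MvPolynomial σ K // p ≠ 0}
    refine ⟨fun j => MvPolynomial.map K.subtype (en j).1, fun j => ?_, fun f hf hb => h f ⟨hf, ?_⟩⟩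
    · have h1 := (en j).2
      intro h
      exact h1 ((map_eq_zero_iff _ (MvPolynomial.map_injective _ K.subtype.injective)).mp h)
    · rw [algebraicIndependent_iff]
      intro p hp
      by_contra hp0
      obtain ⟨l, hl⟩ := hen ⟨p, hp0⟩
      apply hb l
      change MvPolynomial.eval _ (MvPolynomial.map K.subtype (en l).1) = 0
      rw [hl, MvPolynomial.eval_map]
      exact hp

/-- independent elements over a countable field -/
theorem exists_indep (K : Subfield ℂ) [Countable K] (ι : Type) [Countable ι] :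
    ∃ c : ι → ℂ, AlgebraicIndependent K c := by
  obtain ⟨s, hs⟩ := exists_isTranscendenceBasis K ℂ
  have hcard : Cardinal.mk ℂ = Cardinal.mk s :=
    IsAlgClosed.cardinal_eq_cardinal_transcendence_basis_of_aleph0_lt' _ hs
      (Cardinal.mk_le_aleph0_iff.2 inferInstance)
      (by rw [Cardinal.mk_complex]; exact Cardinal.aleph0_lt_continuum)
  have hinf : Infinite s := by
    rw [Cardinal.infinite_iff, ← hcard, Cardinal.mk_complex]
    exact Cardinal.aleph0_le_continuum
  obtain ⟨g, hg⟩ := exists_injective_nat ι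
  let e : ℕ ↪ s := Infinite.natEmbedding s
  exact ⟨fun i => (e (g i) : ℂ), hs.1.comp _ (e.injective.comp hg)⟩

/-- embedding of a countable field into `ℂ` over a countable subfield -/
theorem exists_embedding (K : Subfield ℂ) [Countable K] (k : Type) [Field k] [Countable k]
    (φ : K →+* k) : ∃ ψ : k →+* ℂ, ψ.comp φ = K.subtype := by
  let : Algebra K k := φ.toAlgebra
  obtain ⟨s, hs⟩ := exists_isTranscendenceBasis K k
  obtain ⟨c, hc⟩ := exists_indep K s
  let R := Algebra.adjoin K (Set.range ((↑) : s → k))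
  let ρ : R →ₐ[K] ℂ := (aeval c).comp (hs.1.repr : R →ₐ[K] MvPolynomial s K)
  have hρ : Function.Injective ρ := by
    intro x y hxy
    have h1 := hc hxy
    exact hs.1.aevalEquiv.symm.injective h1
  let : Algebra R ℂ := ρ.toRingHom.toAlgebra
  have : FaithfulSMul R ℂ := (faithfulSMul_iff_algebraMap_injective R ℂ).2 hρ
  have : Algebra.IsAlgebraic R k := hs.isAlgebraic
  have : FaithfulSMul R k := (faithfulSMul_iff_algebraMap_injective R k).2 Subtype.val_injective
  let ψ : k →ₐ[R] ℂ := IsAlgClosed.lift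
  refine ⟨ψ.toRingHom, ?_⟩
  ext x
  have h1 := ψ.commutes (algebraMap K R x)
  have h2 : algebraMap R k (algebraMap K R x) = φ x := rfl
  rw [h2] at h1
  change ψ (φ x) = (x : ℂ)
  rw [h1]
  exact ρ.commutes x

end Pool.Agent.Q76.DV
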