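import Mathlib

/-!
# Sets of tuples which are closed under sums in each coordinate
-/

set_option autoImplicit false

namespace Pool.Agent.Q76.DV

open Function

/-- Frobenius coin problem for two coins -/
theorem coins (a M : ℕ) : ∃ B : ℕ, ∀ m, B ≤ m → Nat.gcd a M ∣ m → ∃ u v : ℕ, m = u * a + v * M := by
  obtain ⟨B, hB⟩ := Nat.exists_mem_closure_of_ge ({a, M} : Set ℕ)
  refine ⟨B, fun m hm hd => ?_⟩
  have h1 : Nat.setGcd ({a, M} : Set ℕ) ∣ Nat.gcd a M :=
    Nat.dvd_gcd (Nat.setGcd_dvd_of_mem (by simp)) (Nat.setGcd_dvd_of_mem (by simp))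
  have h2 := hB m hm (h1.trans hd)
  rw [AddSubmonoid.mem_closure_pair] at h2
  obtain ⟨u, v, h⟩ := h2
  exact ⟨u, v, by simpa using h.symm⟩

section

variable {r : ℕ} (P : (Fin r → ℕ) → Prop) (M : ℕ)

theorem slice_mul (hadd : ∀ d i a b, P (update d i a) → P (update d i b) → P (update d i (a + b)))
    (d : Fin r → ℕ) (i : Fin r) (a : ℕ) (ha : P (update d i a)) (u : ℕ) :
    P (update d i ((u + 1) * a)) := by
  induction u with
  | zero => simpa using ha
  | succ u ih =>
    have := hadd d i _ _ ih ha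
    rwa [show (u + 1 + 1) * a = (u + 1) * a + a by ring]

theorem slice (hadd : ∀ d i a b, P (update d i a) → P (update d i b) → P (update d i (a + b)))
    (hmul : ∀ d i, M ∣ d i → P d) (d : Fin r → ℕ) (i : Fin r) (a u v : ℕ)
    (ha : P (update d i a)) : P (update d i (u * a + v * M)) := by
  have h1 : P (update d i (v * M)) := hmul _ i (by simp)
  rcases u with _ | u
  · simpa using h1
  · exact hadd d i _ _ (slice_mul P hadd d i a ha u) h1

theorem move (hadd : ∀ d i a b, P (update d i a) → P (update d i b) → P (update d i (a + b)))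
    (hmul : ∀ d i, M ∣ d i → P d) (x y : Fin r → ℕ) (hx : P x)
    (h : ∀ i, ∃ u v : ℕ, y i = u * x i + v * M) : P y := by
  classical
  have key : ∀ s : Finset (Fin r), P (s.piecewise y x) := by
    intro s
    induction s using Finset.induction_on with
    | empty => simpa using hx
    | insert j s hj ih =>
      rw [Finset.piecewise_insert]
      obtain ⟨u, v, h1⟩ := h j
      rw [h1]
      refine slice P M hadd hmul _ j (x j) u v ?_
      have h2 : update (s.piecewise y x) j (x j) = s.piecewise y x := by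
        rw [update_eq_self_iff]
        exact (Finset.piecewise_eq_of_notMem _ _ _ hj).symm
      rw [h2]
      exact ih
  simpa using key Finset.univ

theorem law (hM : 0 < M)
    (hadd : ∀ d i a b, P (update d i a) → P (update d i b) → P (update d i (a + b)))
    (hmul : ∀ d i, M ∣ d i → P d) :
    ∃ (D : ℕ) (G : Finset (Fin r → ℕ)), (∀ g ∈ G, ∀ i, g i ∣ M) ∧
      (∀ d, P d → ∃ g ∈ G, ∀ i, g i ∣ d i) ∧
      ∀ d, (∀ i, D < d i) → (∃ g ∈ G, ∀ i, g i ∣ d i) → P d := by
  classical
  choose B hB using fun a => coins a M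
  let S : Finset (Fin r → ℕ) := Fintype.piFinset fun _ => M.divisors
  let G : Finset (Fin r → ℕ) := S.filter fun g => ∃ x, P x ∧ ∀ i, Nat.gcd (x i) M = g i
  have hG : ∀ g : (Fin r → ℕ), ∃ x : Fin r → ℕ, g ∈ G → P x ∧ ∀ i, Nat.gcd (x i) M = g i := by
    intro g
    by_cases hg : g ∈ G
    · obtain ⟨x, hx⟩ := (Finset.mem_filter.1 hg).2
      exact ⟨x, fun _ => hx⟩
    · exact ⟨0, fun h => absurd h hg⟩
  choose x hx using hG
  refine ⟨G.sup fun g => Finset.univ.sup fun i => B (x g i), G, fun g hg i => ?_, fun d hd => ?_,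
    fun d hD hg => ?_⟩
  · have h1 := Fintype.mem_piFinset.1 (Finset.mem_filter.1 hg).1 i
    exact Nat.dvd_of_mem_divisors h1
  · refine ⟨fun i => Nat.gcd (d i) M, Finset.mem_filter.2 ⟨Fintype.mem_piFinset.2 fun i => ?_,
      d, hd, fun i => rfl⟩, fun i => Nat.gcd_dvd_left _ _⟩
    exact Nat.mem_divisors.2 ⟨Nat.gcd_dvd_right _ _, hM.ne'⟩
  · obtain ⟨g, hg, hgd⟩ := hg
    obtain ⟨h1, h2⟩ := hx g hg
    refine move P M hadd hmul (x g) d h1 fun i => hB _ _ ?_ ?_
    · have h3 : B (x g i) ≤ Finset.univ.sup fun i => B (x g i) :=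
        Finset.le_sup (f := fun i => B (x g i)) (Finset.mem_univ i)
      have h4 : (Finset.univ.sup fun i => B (x g i)) ≤ G.sup fun g => Finset.univ.sup fun i => B (x g i) :=
        Finset.le_sup (f := fun g => Finset.univ.sup fun i => B (x g i)) hg
      exact (h3.trans h4).trans (hD i).le
    · rw [h2 i]
      exact hgd i

end

/-- one coordinate -/
theorem law_one (P : ℕ → Prop) (M : ℕ) (hadd : ∀ a b, P a → P b → P (a + b))
    (hmul : ∀ a, M ∣ a → P a) :
    ∃ D g : ℕ, g ∣ M ∧ (∀ d, P d → g ∣ d) ∧ ∀ d, D < d → g ∣ d → P d := by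
  obtain ⟨B, hB⟩ := Nat.exists_mem_closure_of_ge {x | P x}
  refine ⟨B, Nat.setGcd {x | P x}, Nat.setGcd_dvd_of_mem (hmul M dvd_rfl),
    fun d hd => Nat.setGcd_dvd_of_mem hd, fun d hd hg => ?_⟩
  have h1 := hB d hd.le hg
  clear hd hg
  induction h1 using AddSubmonoid.closure_induction with
  | mem x hx => exact hx
  | zero => exact hmul 0 (dvd_zero _)
  | add a b _ _ ha hb => exact hadd a b ha hb

end Pool.Agent.Q76.DV
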