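import Mathlib
import Pool.Agent.TH922.KC.Spec

/-!
# Hilbert functions and extensions of the field, growth and dimension
-/

set_option autoImplicit false

open MvPolynomial Pool.Agent.TH922.KC

namespace Pool.Agent.Q76.DV

section ext

variable {k κ : Type*} [Field k] [Field κ] (φ : k →+* κ) {X : Type*}

/-- the extension of an ideal as a span over the field -/
theorem mem_span_of_mem_map {J : Ideal (MvPolynomial X k)} {q : MvPolynomial X κ}
    (hq : q ∈ J.map (MvPolynomial.map φ)) :
    q ∈ Submodule.span κ ((MvPolynomial.map φ) '' (J : Set (MvPolynomial X k))) := by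
  have key : ∀ (a : MvPolynomial X κ) (p : MvPolynomial X k), p ∈ J →
      a * MvPolynomial.map φ p ∈
        Submodule.span κ ((MvPolynomial.map φ) '' (J : Set (MvPolynomial X k))) := by
    intro a
    induction a using MvPolynomial.induction_on with
    | C c =>
      intro p hp
      rw [← MvPolynomial.smul_eq_C_mul]
      exact Submodule.smul_mem _ _ (Submodule.subset_span ⟨p, hp, rfl⟩)
    | add a b ha hb =>
      intro p hp
      rw [add_mul]
      exact Submodule.add_mem _ (ha p hp) (hb p hp)
    | mul_X a i ha =>
      intro p hp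
      have h1 := ha (MvPolynomial.X i * p) (J.mul_mem_left _ hp)
      rw [map_mul, map_X, ← mul_assoc] at h1
      exact h1
  refine Submodule.span_induction (p := fun x _ => x ∈
    Submodule.span κ ((MvPolynomial.map φ) '' (J : Set (MvPolynomial X k)))) ?_ ?_ ?_ ?_ hq
  · intro x hx
    exact Submodule.subset_span hx
  · exact Submodule.zero_mem _
  · intro x y _ _ hx hy
    exact Submodule.add_mem _ hx hy
  · intro a x _ hx
    refine Submodule.span_induction (p := fun x _ => a • x ∈
      Submodule.span κ ((MvPolynomial.map φ) '' (J : Set (MvPolynomial X k)))) ?_ ?_ ?_ ?_ hx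
    · rintro _ ⟨p, hp, rfl⟩
      exact key a p hp
    · rw [smul_zero]
      exact Submodule.zero_mem _
    · intro x y _ _ hx hy
      rw [smul_add]
      exact Submodule.add_mem _ hx hy
    · intro c x _ hx
      rw [smul_comm]
      exact Submodule.smul_mem _ c hx

theorem mem_map_of_mem_span {J : Ideal (MvPolynomial X k)} {q : MvPolynomial X κ}
    (hq : q ∈ Submodule.span κ ((MvPolynomial.map φ) '' (J : Set (MvPolynomial X k)))) :
    q ∈ J.map (MvPolynomial.map φ) := by
  refine Submodule.span_induction (p := fun x _ => x ∈ J.map (MvPolynomial.map φ)) ?_ ?_ ?_ ?_ hq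
  · rintro _ ⟨p, hp, rfl⟩
    exact Ideal.mem_map_of_mem _ hp
  · exact Ideal.zero_mem _
  · intro x y _ _ hx hy
    exact Ideal.add_mem _ hx hy
  · intro c x _ hx
    rw [MvPolynomial.smul_eq_C_mul]
    exact Ideal.mul_mem_left _ _ hx

theorem hom_map {J : Ideal (MvPolynomial X k)} (hJ : IsHom J) :
    IsHom (J.map (MvPolynomial.map φ)) := by
  intro q hq t
  apply mem_map_of_mem_span
  refine Submodule.span_induction (p := fun x _ => homogeneousComponent t x ∈
      Submodule.span κ ((MvPolynomial.map φ) '' (J : Set (MvPolynomial X k)))) ?_ ?_ ?_ ?_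
      (mem_span_of_mem_map φ hq)
  · rintro _ ⟨p, hp, rfl⟩
    have : homogeneousComponent t (MvPolynomial.map φ p) =
        MvPolynomial.map φ (homogeneousComponent t p) := by
      classical
      ext ν
      rw [coeff_map, coeff_homogeneousComponent, coeff_homogeneousComponent, coeff_map]
      split_ifs <;> simp
    rw [this]
    exact Submodule.subset_span ⟨_, hJ _ hp _, rfl⟩
  · rw [map_zero]
    exact Submodule.zero_mem _
  · intro x y _ _ hx hy
    rw [map_add]
    exact Submodule.add_mem _ hx hy
  · intro c x _ hx
    rw [map_smul]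
    exact Submodule.smul_mem _ c hx

/-- **The Hilbert function does not change under extensions of the field.** -/
theorem hf_map [Finite X] {J : Ideal (MvPolynomial X k)} (hJ : IsHom J) (t : ℕ) :
    hf (J.map (MvPolynomial.map φ)) t = hf J t := by
  classical
  have A := hf_add J t
  have A' := hf_add (J.map (MvPolynomial.map φ)) t
  rw [finrank_H, finrank_KJ] at A A'
  set W := Submodule.comap (tp X k t) (J.restrictScalars k) with hW
  set W' := Submodule.comap (tp X κ t) ((J.map (MvPolynomial.map φ)).restrictScalars κ) with hW'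
  obtain ⟨w, b, L, hLb, hbW, hsp⟩ := lattice_basis (⊤ : ValuationSubring k) W
  let e : (⊤ : ValuationSubring k) →+* κ := φ.comp (⊤ : ValuationSubring k).subtype
  have e1 : W = Submodule.span k (Set.range (fun j => fun μ => ((b j μ : (⊤ : ValuationSubring k)) : k))) := by
    apply le_antisymm
    · intro v hv
      have h1 := hsp (fun μ => ⟨v μ, trivial⟩) hv
      refine Submodule.span_induction (p := fun x _ =>
        (fun μ => ((x μ : (⊤ : ValuationSubring k)) : k)) ∈ Submodule.span k
          (Set.range (fun j => fun μ => ((b j μ : (⊤ : ValuationSubring k)) : k)))) ?_ ?_ ?_ ?_ h1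
      · rintro _ ⟨j, rfl⟩
        exact Submodule.subset_span ⟨j, rfl⟩
      · exact Submodule.zero_mem _
      · intro x y _ _ hx hy
        exact Submodule.add_mem _ hx hy
      · intro a x _ hx
        exact Submodule.smul_mem _ (a : k) hx
    · rw [Submodule.span_le]
      rintro _ ⟨j, rfl⟩
      exact hbW j
  have e2 : W' = Submodule.span κ (Set.range (fun j => fun μ => e (b j μ))) := by
    apply le_antisymm
    · intro v hv
      have hv' : tp X κ t v ∈ J.map (MvPolynomial.map φ) := hv
      have hv2 := mem_span_of_mem_map φ hv'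
      have hv3 : (fun μ : It X t => coeff μ.1 (tp X κ t v)) ∈
          Submodule.span κ (Set.range (fun j => fun μ => e (b j μ))) := by
        refine Submodule.span_induction (p := fun x _ => (fun μ : It X t => coeff μ.1 x) ∈
          Submodule.span κ (Set.range (fun j => fun μ => e (b j μ)))) ?_ ?_ ?_ ?_ hv2
        · rintro _ ⟨p, hp, rfl⟩
          have h1 : (fun μ : It X t => coeff μ.1 p) ∈ W := by
            have h2 : tp X k t (fun μ : It X t => coeff μ.1 (homogeneousComponent t p)) ∈ J := by
              rw [tp_coeff t (homogeneousComponent_isHomogeneous t p)]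
              exact hJ _ hp _
            have h3 : (fun μ : It X t => coeff μ.1 (homogeneousComponent t p)) =
                fun μ : It X t => coeff μ.1 p := by
              funext μ
              rw [coeff_homogeneousComponent, if_pos μ.2]
            rw [h3] at h2
            exact h2
          have h4 := hsp (fun μ => ⟨coeff μ.1 p, trivial⟩) h1
          have h5 : (fun μ : It X t => coeff μ.1 (MvPolynomial.map φ p)) =
              fun μ : It X t => e ⟨coeff μ.1 p, trivial⟩ := by
            funext μ
            rw [coeff_map]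
            rfl
          rw [h5]
          refine Submodule.span_induction (p := fun x _ => (fun μ : It X t => e (x μ)) ∈
            Submodule.span κ (Set.range (fun j => fun μ => e (b j μ)))) ?_ ?_ ?_ ?_ h4
          · rintro _ ⟨j, rfl⟩
            exact Submodule.subset_span ⟨j, rfl⟩
          · convert Submodule.zero_mem _ using 1
            funext μ
            simp
          · intro x y _ _ hx hy
            convert Submodule.add_mem _ hx hy using 1
            funext μ
            simp
          · intro a x _ hx
            convert Submodule.smul_mem _ (e a) hx using 1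
            funext μ
            simp
        · convert Submodule.zero_mem _ using 1
          funext μ
          simp
        · intro x y _ _ hx hy
          convert Submodule.add_mem _ hx hy using 1
          funext μ
          simp
        · intro c x _ hx
          convert Submodule.smul_mem _ c hx using 1
          funext μ
          simp
      convert hv3 using 1
      funext μ
      rw [coeff_tp, dif_pos μ.2]
    · rw [Submodule.span_le]
      rintro _ ⟨j, rfl⟩
      show tp X κ t _ ∈ J.map (MvPolynomial.map φ)
      have h1 : tp X κ t (fun μ => e (b j μ)) =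
          MvPolynomial.map φ (tp X k t (fun μ => ((b j μ : (⊤ : ValuationSubring k)) : k))) := by
        rw [map_tp]
        rfl
      rw [h1]
      exact Ideal.mem_map_of_mem _ (hbW j)
  have f1 : Module.finrank k W = w := by
    rw [e1]
    refine finrank_span_dual _ (fun i μ => ((L i μ : (⊤ : ValuationSubring k)) : k)) (fun i j => ?_)
    have := congrArg (⊤ : ValuationSubring k).subtype (hLb i j)
    rw [map_sum] at this
    simp only [map_mul] at this
    change ∑ μ, (⊤ : ValuationSubring k).subtype (L i μ) * (⊤ : ValuationSubring k).subtype (b j μ) = _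
    rw [this]
    split_ifs <;> simp
  have f2 : Module.finrank κ W' = w := by
    rw [e2]
    refine finrank_span_dual _ (fun i μ => e (L i μ)) (fun i j => ?_)
    have := congrArg e (hLb i j)
    rw [map_sum] at this
    simp only [map_mul] at this
    rw [this]
    split_ifs <;> simp
  rw [f1] at A
  rw [f2] at A'
  omega

end ext

section growth

variable {X : Type} [Finite X] {κ : Type} [Field κ]

/-- images of the polynomials of degree at most `m` -/
noncomputable def WW (P : Ideal (MvPolynomial X κ)) : ℕ → Submodule κ (MvPolynomial X κ ⧸ P)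
  | 0 => Submodule.map (Ideal.Quotient.mkₐ κ P).toLinearMap (homogeneousSubmodule X κ 0)
  | m + 1 => WW P m ⊔
      Submodule.map (Ideal.Quotient.mkₐ κ P).toLinearMap (homogeneousSubmodule X κ (m + 1))

instance WW_fin (P : Ideal (MvPolynomial X κ)) (m : ℕ) : Module.Finite κ (WW P m) := by
  induction m with
  | zero =>
    have : WW P 0 = Submodule.map (Ideal.Quotient.mkₐ κ P).toLinearMap
      (homogeneousSubmodule X κ 0) := rfl
    rw [this]
    infer_instance
  | succ m ih =>
    have : WW P (m + 1) = WW P m ⊔ Submodule.map (Ideal.Quotient.mkₐ κ P).toLinearMap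
      (homogeneousSubmodule X κ (m + 1)) := rfl
    rw [this]
    infer_instance

theorem WW_le (P : Ideal (MvPolynomial X κ)) (m : ℕ) :
    Module.finrank κ (WW P m) ≤ ∑ t ∈ Finset.range (m + 1), hf P t := by
  induction m with
  | zero =>
    rw [Finset.sum_range_one]
    exact le_rfl
  | succ m ih =>
    rw [Finset.sum_range_succ]
    refine le_trans ?_ (Nat.add_le_add_right ih _)
    exact Submodule.finrank_add_le_finrank_add_finrank _ _

omit [Finite X] in
theorem WW_mono (P : Ideal (MvPolynomial X κ)) : Monotone (WW P) :=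
  monotone_nat_of_le_succ fun _ => le_sup_left

omit [Finite X] in
theorem hom_mem_WW (P : Ideal (MvPolynomial X κ)) {t m : ℕ} (h : t ≤ m) {p : MvPolynomial X κ}
    (hp : p.IsHomogeneous t) : Ideal.Quotient.mk P p ∈ WW P m := by
  refine WW_mono P h ?_
  cases t with
  | zero => exact ⟨p, hp, rfl⟩
  | succ t => exact Submodule.mem_sup_right ⟨p, hp, rfl⟩

omit [Finite X] in
theorem mem_WW (P : Ideal (MvPolynomial X κ)) {m : ℕ} {p : MvPolynomial X κ}
    (hp : p.totalDegree ≤ m) : Ideal.Quotient.mk P p ∈ WW P m := by
  rw [← sum_homogeneousComponent p, map_sum]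
  refine Submodule.sum_mem _ fun t ht => ?_
  rw [Finset.mem_range] at ht
  exact hom_mem_WW P (by omega) (homogeneousComponent_isHomogeneous t p)

theorem ringKrullDim_le_of_integral {R S : Type*} [CommRing R] [CommRing S] [Algebra R S]
    [Algebra.IsIntegral R S] : ringKrullDim S ≤ ringKrullDim R := by
  refine Order.krullDim_le_of_strictMono (PrimeSpectrum.comap (algebraMap R S)) ?_
  intro P Q hPQ
  have hle : P.asIdeal ≤ Q.asIdeal := hPQ.le
  have hne : ¬ Q.asIdeal ≤ P.asIdeal := fun h => hPQ.not_ge h
  obtain ⟨x, hx1, hx2⟩ := Set.not_subset.mp hne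
  have := Ideal.comap_lt_comap_of_integral_mem_sdiff (R := R) hle ⟨hx1, hx2⟩
    (Algebra.IsIntegral.isIntegral x)
  exact this

/-- **Linear growth of the Hilbert function implies dimension at most two.** -/
theorem dim_le_two {P : Ideal (MvPolynomial X κ)} (hP : P.IsPrime) {C : ℕ}
    (hC : ∀ t, hf P t ≤ C * (t + 1)) : ringKrullDim (MvPolynomial X κ ⧸ P) ≤ 2 := by
  classical
  obtain ⟨s, g, hg1, hg2⟩ := exists_integral_inj_algHom_of_fg κ (MvPolynomial X κ ⧸ P)
  have hs : s ≤ 2 := by
    by_contra hs
    push Not at hs
    choose Y hY using fun i : Fin s => Ideal.Quotient.mk_surjective (g (MvPolynomial.X i))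
    obtain ⟨D, hD⟩ : ∃ D : ℕ, ∀ i, (Y i).totalDegree ≤ D :=
      ⟨Finset.univ.sup fun i => (Y i).totalDegree, fun i =>
        Finset.le_sup (f := fun i => (Y i).totalDegree) (Finset.mem_univ i)⟩
    obtain ⟨k, hk⟩ : ∃ k : ℕ, k = C * (3 * D + 1) ^ 2 := ⟨_, rfl⟩
    let i0 : Fin s := ⟨0, by omega⟩
    let i1 : Fin s := ⟨1, by omega⟩
    let i2 : Fin s := ⟨2, by omega⟩
    let ν : Fin (k + 1) × Fin (k + 1) × Fin (k + 1) → (Fin s →₀ ℕ) := fun x =>
      Finsupp.single i0 (x.1 : ℕ) + Finsupp.single i1 (x.2.1 : ℕ) + Finsupp.single i2 (x.2.2 : ℕ)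
    have hν : Function.Injective ν := by
      rintro ⟨a, b, c⟩ ⟨a', b', c'⟩ h
      have h0 := DFunLike.congr_fun h i0
      have h1 := DFunLike.congr_fun h i1
      have h2 := DFunLike.congr_fun h i2
      simp [ν, i0, i1, i2, Finsupp.single_apply] at h0 h1 h2
      rw [Fin.ext h0, Fin.ext h1, Fin.ext h2]
    have hli : LinearIndependent κ (fun x => g (monomial (ν x) (1 : κ))) := by
      have h1 : LinearIndependent κ (fun x => (monomial (ν x) (1 : κ) : MvPolynomial (Fin s) κ)) := by
        have h2 := (basisMonomials (Fin s) κ).linearIndependent.comp ν hν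
        rw [coe_basisMonomials] at h2
        exact h2
      exact h1.map' g.toLinearMap (LinearMap.ker_eq_bot.2 hg1)
    have hmem : ∀ x, g (monomial (ν x) (1 : κ)) ∈ WW P (3 * k * D) := by
      rintro ⟨a, b, c⟩
      have h1 : (monomial (ν (a, b, c)) (1 : κ) : MvPolynomial (Fin s) κ) =
          MvPolynomial.X i0 ^ (a : ℕ) * MvPolynomial.X i1 ^ (b : ℕ) *
            MvPolynomial.X i2 ^ (c : ℕ) := by
        simp only [ν, X_pow_eq_monomial, monomial_mul, mul_one]
      rw [h1, map_mul, map_mul, map_pow, map_pow, map_pow, ← hY i0, ← hY i1, ← hY i2,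
        ← map_pow, ← map_pow, ← map_pow, ← map_mul, ← map_mul]
      apply mem_WW
      refine (totalDegree_mul _ _).trans ?_
      refine (Nat.add_le_add_right (totalDegree_mul _ _) _).trans ?_
      have ha : ((Y i0) ^ (a : ℕ)).totalDegree ≤ k * D :=
        (totalDegree_pow _ _).trans (Nat.mul_le_mul (by omega) (hD i0))
      have hb : ((Y i1) ^ (b : ℕ)).totalDegree ≤ k * D :=
        (totalDegree_pow _ _).trans (Nat.mul_le_mul (by omega) (hD i1))
      have hc : ((Y i2) ^ (c : ℕ)).totalDegree ≤ k * D :=
        (totalDegree_pow _ _).trans (Nat.mul_le_mul (by omega) (hD i2))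
      nlinarith
    have hli2 : LinearIndependent κ (fun x => (⟨g (monomial (ν x) (1 : κ)), hmem x⟩ :
        WW P (3 * k * D))) := by
      apply LinearIndependent.of_comp (WW P (3 * k * D)).subtype
      exact hli
    have h1 := hli2.fintype_card_le_finrank
    have h2 : ∑ t ∈ Finset.range (3 * k * D + 1), hf P t ≤
        (3 * k * D + 1) * (C * (3 * k * D + 1)) := by
      calc ∑ t ∈ Finset.range (3 * k * D + 1), hf P t ≤
            ∑ t ∈ Finset.range (3 * k * D + 1), C * (3 * k * D + 1) := by
            apply Finset.sum_le_sum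
            intro t ht
            rw [Finset.mem_range] at ht
            exact (hC t).trans (Nat.mul_le_mul_left _ (by omega))
        _ = _ := by rw [Finset.sum_const, Finset.card_range, smul_eq_mul]
    have h3 := h1.trans ((WW_le P _).trans h2)
    rw [Fintype.card_prod, Fintype.card_prod, Fintype.card_fin] at h3
    have h4 : 3 * k * D + 1 ≤ (3 * D + 1) * (k + 1) := by nlinarith
    have h5 : (3 * k * D + 1) * (C * (3 * k * D + 1)) ≤ C * (3 * D + 1) ^ 2 * (k + 1) ^ 2 := by
      calc (3 * k * D + 1) * (C * (3 * k * D + 1)) = C * (3 * k * D + 1) ^ 2 := by ring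
        _ ≤ C * ((3 * D + 1) * (k + 1)) ^ 2 := by gcongr
        _ = _ := by ring
    rw [← hk] at h5
    have h6 : (k + 1) * ((k + 1) * (k + 1)) ≤ k * (k + 1) ^ 2 := h3.trans h5
    nlinarith [Nat.zero_le k, sq_nonneg (k + 1)]
  let _ : Algebra (MvPolynomial (Fin s) κ) (MvPolynomial X κ ⧸ P) := g.toRingHom.toAlgebra
  have _ : Algebra.IsIntegral (MvPolynomial (Fin s) κ) (MvPolynomial X κ ⧸ P) := ⟨hg2⟩
  have h1 : ringKrullDim (MvPolynomial X κ ⧸ P) ≤ ringKrullDim (MvPolynomial (Fin s) κ) :=
    ringKrullDim_le_of_integral
  rw [MvPolynomial.ringKrullDim_of_isNoetherianRing, ringKrullDim_eq_zero_of_field] at h1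
  refine h1.trans ?_
  have h2 : ((s : ℕ) : WithBot ℕ∞) ≤ ((2 : ℕ) : WithBot ℕ∞) := by exact_mod_cast hs
  simpa using h2

end growth

end Pool.Agent.Q76.DV
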