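import Mathlib
import Pool.Agent.Q76.DV.Base
import Pool.Agent.Q76.DV.Hil

/-!
# Transfer of the divisibility from `ℂ` to other fields
-/

set_option autoImplicit false

open MvPolynomial Pool.Agent.TH922.KC

namespace Pool.Agent.Q76.DV

/-- every ideal is defined over a countable subfield -/
theorem descend {κ : Type} [Field κ] {X : Type} [Finite X] (J : Ideal (MvPolynomial X κ))
    (s : Set κ) (hs : s.Countable) :
    ∃ k : Subfield κ, Countable k ∧ s ⊆ k ∧
      (J.comap (MvPolynomial.map k.subtype)).map (MvPolynomial.map k.subtype) = J := by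
  obtain ⟨G, hG⟩ := (isNoetherianRing_iff_ideal_fg _).1
    (inferInstance : IsNoetherianRing (MvPolynomial X κ)) J
  let u : Set κ := s ∪ ⋃ p ∈ G, (p.coeffs : Set κ)
  have hu : u.Countable := by
    refine hs.union ?_
    exact G.countable_toSet.biUnion fun p _ => (Finset.finite_toSet _).countable
  refine ⟨Subfield.closure u, countable_closure hu,
    fun x hx => Subfield.subset_closure (Or.inl hx), ?_⟩
  apply le_antisymm
  · exact Ideal.map_comap_le
  · conv_lhs => rw [← hG]
    rw [Ideal.span_le]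
    intro p hp
    have h1 : p ∈ Set.range (MvPolynomial.map (Subfield.closure u).subtype) := by
      rw [mem_range_map_iff_coeffs_subset]
      intro x hx
      exact ⟨⟨x, Subfield.subset_closure (Or.inr (Set.mem_biUnion hp hx))⟩, rfl⟩
    obtain ⟨b, hb⟩ := h1
    rw [← hb]
    apply Ideal.mem_map_of_mem
    rw [Ideal.mem_comap, hb, ← hG]
    exact Ideal.subset_span hp

/-- The divisibility for homogeneous ideals of linear growth over `ℂ`. -/
theorem Good.all {N : ℕ} {X : Type} [Finite X] {r : ℕ} {g : Fin r → MvPolynomial X ℂ}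
    (hg : Good N g) {J : Ideal (MvPolynomial X ℂ)} (hJ : IsHom J) (hJg : ∀ i, g i ∈ J)
    (hgr : ∃ C : ℕ, ∀ t, hf J t ≤ C * (t + 1)) :
    ∃ K : ℕ, ∀ t ≥ K, (N : ℤ) ∣ (hf J (t + 1) : ℤ) - hf J t := by
  have h := div_of_prime N 1 (Ideal.span (Set.range g)) (fun P hP hPp hF hPgr => by
    obtain ⟨C, hC⟩ := hPgr
    have h2 := dim_le_two hPp hC
    rcases eq_or_lt_of_le h2 with h3 | h3
    · obtain ⟨K, hK⟩ := hg P hP hPp h3 fun i => hF (Ideal.subset_span ⟨i, rfl⟩)
      exact ⟨K, fun t ht => by rw [one_mul]; exact hK t ht⟩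
    · have h4 : ringKrullDim (MvPolynomial X ℂ ⧸ P) ≤ 1 := by
        have h5 : ringKrullDim (MvPolynomial X ℂ ⧸ P) < ((1 : ℕ) : WithBot ℕ∞) + 1 := by
          refine h3.trans_eq ?_
          norm_num
        have h6 := ENat.WithBot.lt_add_one_iff.1 h5
        simpa using h6
      obtain ⟨C1, hC1⟩ := growth1 P hP h4
      obtain ⟨K, e, hK⟩ := ev_const P hP ⟨C1, fun t => by
        calc ∑ s ∈ Finset.range t, hf P s ≤ ∑ s ∈ Finset.range t, C1 :=
              Finset.sum_le_sum fun s _ => hC1 s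
          _ = C1 * t := by rw [Finset.sum_const, Finset.card_range, smul_eq_mul, mul_comm]⟩
      exact ⟨K, fun t ht => by rw [hK t ht, hK (t + 1) (by omega), sub_self, mul_zero]
                               exact dvd_zero _⟩) J hJ (by
    rw [Ideal.span_le]
    rintro _ ⟨i, rfl⟩
    exact hJg i) hgr
  obtain ⟨K, hK⟩ := h
  exact ⟨K, fun t ht => by have := hK t ht; rwa [one_mul] at this⟩

/-- **Transfer to other fields.** -/
theorem transfer {N : ℕ} {X : Type} [Finite X] {r : ℕ} (K : Subfield ℂ) [Countable K]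
    (g : Fin r → MvPolynomial X K) (hg : Good N fun i => MvPolynomial.map K.subtype (g i))
    {κ : Type} [Field κ] (φ : K →+* κ) {J : Ideal (MvPolynomial X κ)} (hJ : IsHom J)
    (hJg : ∀ i, MvPolynomial.map φ (g i) ∈ J) (hgr : ∃ C : ℕ, ∀ t, hf J t ≤ C * (t + 1)) :
    ∃ K : ℕ, ∀ t ≥ K, (N : ℤ) ∣ (hf J (t + 1) : ℤ) - hf J t := by
  obtain ⟨k, hk, hsk, hJk⟩ := descend J (Set.range φ) (Set.countable_range φ)
  set Jk := J.comap (MvPolynomial.map k.subtype) with hJkdef
  have hJkh : IsHom Jk := by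
    intro p hp t
    rw [hJkdef, Ideal.mem_comap] at hp ⊢
    rw [map_hc]
    exact hJ _ hp _
  let φ' : K →+* k := φ.codRestrict k fun x => hsk ⟨x, rfl⟩
  obtain ⟨ψ, hψ⟩ := exists_embedding K k φ'
  have h1 : ∀ t, hf J t = hf Jk t := by
    intro t
    conv_lhs => rw [← hJk]
    exact hf_map k.subtype hJkh t
  have h2 : ∀ t, hf (Jk.map (MvPolynomial.map ψ)) t = hf Jk t := fun t => hf_map ψ hJkh t
  obtain ⟨C, hC⟩ := hgr
  obtain ⟨K', hK'⟩ := hg.all (hom_map ψ hJkh) (fun i => by
    have h3 : MvPolynomial.map φ' (g i) ∈ Jk := by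
      rw [hJkdef, Ideal.mem_comap, map_map]
      exact hJg i
    have h4 := Ideal.mem_map_of_mem (MvPolynomial.map ψ) h3
    rw [map_map, hψ] at h4
    exact h4) ⟨C, fun t => by rw [h2, ← h1]; exact hC t⟩
  exact ⟨K', fun t ht => by
    have := hK' t ht
    rwa [h2, h2, ← h1, ← h1] at this⟩

end Pool.Agent.Q76.DV
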