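import Mathlib
import Pool.Agent.Q76.DV.Tr
import Pool.Agent.TH922.KC.Fin2

/-!
# Removing variables; forms with given coefficients
-/

set_option autoImplicit false

open MvPolynomial Pool.Agent.TH922.KC

namespace Pool.Agent.Q76.DV

section kill

variable {κ : Type*} [Field κ] {X X' : Type*} {ι : X → X'} (hι : Function.Injective ι)

include hι

theorem hom_kill {p : MvPolynomial X' κ} {t : ℕ} (hp : p.IsHomogeneous t) :
    (killCompl hι p).IsHomogeneous t := by
  classical
  intro s hs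
  rw [coeff_killCompl] at hs
  have h1 := hp hs
  rw [Finsupp.weight_apply] at h1 ⊢
  rw [Finsupp.sum_mapDomain_index_inj hι] at h1
  exact h1

theorem hc_kill (p : MvPolynomial X' κ) (t : ℕ) :
    homogeneousComponent t (killCompl hι p) = killCompl hι (homogeneousComponent t p) := by
  classical
  ext s
  rw [coeff_homogeneousComponent, coeff_killCompl, coeff_killCompl, coeff_homogeneousComponent,
    Finsupp.degree_mapDomain]

/-- modulo an ideal which contains the other variables -/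
theorem kill_sub {J : Ideal (MvPolynomial X' κ)}
    (hx : ∀ x', x' ∉ Set.range ι → (MvPolynomial.X x' : MvPolynomial X' κ) ∈ J)
    (p : MvPolynomial X' κ) :
    Ideal.Quotient.mkₐ κ J (rename ι (killCompl hι p)) = Ideal.Quotient.mkₐ κ J p := by
  classical
  have h : ((Ideal.Quotient.mkₐ κ J).comp ((rename ι).comp (killCompl hι))) =
      Ideal.Quotient.mkₐ κ J := by
    refine algHom_ext fun x' => ?_
    simp only [AlgHom.comp_apply, killCompl, aeval_X]
    split_ifs with h1
    · rw [rename_X]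
      congr 2
      have := (Equiv.ofInjective ι hι).apply_symm_apply ⟨x', h1⟩
      exact congrArg Subtype.val this
    · rw [map_zero, map_zero, eq_comm]
      exact Ideal.Quotient.eq_zero_iff_mem.2 (hx x' h1)
  exact congrArg (fun g : MvPolynomial X' κ →ₐ[κ] MvPolynomial X' κ ⧸ J => g p) h

/-- variables in the ideal may be removed -/
theorem hf_sub {J : Ideal (MvPolynomial X' κ)}
    (hx : ∀ x', x' ∉ Set.range ι → (MvPolynomial.X x' : MvPolynomial X' κ) ∈ J) (t : ℕ) :
    hf (J.comap (rename ι : MvPolynomial X κ →ₐ[κ] MvPolynomial X' κ)) t = hf J t := by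
  set J0 := J.comap (rename ι : MvPolynomial X κ →ₐ[κ] MvPolynomial X' κ) with hJ0
  let θ : (MvPolynomial X κ ⧸ J0) →ₐ[κ] (MvPolynomial X' κ ⧸ J) :=
    Ideal.quotientMapₐ J (rename ι : MvPolynomial X κ →ₐ[κ] MvPolynomial X' κ) le_rfl
  have hθ : Function.Injective θ := Ideal.quotientMap_injective
  have e : Submodule.map (Ideal.Quotient.mkₐ κ J).toLinearMap (homogeneousSubmodule X' κ t) =
      Submodule.map θ.toLinearMap
        (Submodule.map (Ideal.Quotient.mkₐ κ J0).toLinearMap (homogeneousSubmodule X κ t)) := by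
    apply le_antisymm
    · rintro _ ⟨p, hp, rfl⟩
      refine ⟨Ideal.Quotient.mkₐ κ J0 (killCompl hι p), ⟨killCompl hι p, hom_kill hι hp, rfl⟩, ?_⟩
      exact kill_sub hι hx p
    · rintro _ ⟨_, ⟨p, hp, rfl⟩, rfl⟩
      exact ⟨rename ι p, IsHomogeneous.rename_isHomogeneous hp, rfl⟩
  unfold hf
  rw [e]
  exact (Submodule.equivMapOfInjective θ.toLinearMap hθ _).finrank_eq

omit hι in
theorem hom_comap_rename {J : Ideal (MvPolynomial X' κ)} (hJ : IsHom J) :
    IsHom (J.comap (rename ι : MvPolynomial X κ →ₐ[κ] MvPolynomial X' κ)) := by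
  intro p hp k
  rw [Ideal.mem_comap] at hp ⊢
  rw [rename_homogeneousComponent]
  exact hJ _ hp _

end kill

section frm

variable {X : Type} [Finite X] {R : Type*} [CommRing R]

/-- the form of degree `t` with the coefficients `e` -/
noncomputable def frm (t : ℕ) (e : (X →₀ ℕ) → R) : MvPolynomial X R := tp X R t fun μ => e μ.1

theorem frm_hom (t : ℕ) (e : (X →₀ ℕ) → R) : (frm t e).IsHomogeneous t := tp_hom t _

theorem coeff_frm {t : ℕ} (e : (X →₀ ℕ) → R) {μ : X →₀ ℕ} (h : μ.degree = t) :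
    coeff μ (frm t e) = e μ := by
  unfold frm
  rw [coeff_tp, dif_pos h]

theorem map_frm {S : Type*} [CommRing S] (f : R →+* S) (t : ℕ) (e : (X →₀ ℕ) → R) :
    MvPolynomial.map f (frm t e) = frm t fun μ => f (e μ) := by
  unfold frm
  rw [map_tp]

end frm

/-- the field generated by a countable field and a countable set -/
theorem exists_field {K0 : Subfield ℂ} (hK0 : Countable K0) {ι : Type} [Countable ι] (c : ι → ℂ) :
    ∃ K : Subfield ℂ, Countable K ∧ K0 ≤ K ∧ ∀ i, c i ∈ K := by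
  refine ⟨Subfield.closure ((K0 : Set ℂ) ∪ Set.range c), countable_closure ?_, fun x hx =>
    Subfield.subset_closure (Or.inl hx), fun i => Subfield.subset_closure (Or.inr ⟨i, rfl⟩)⟩
  exact (Set.countable_coe_iff.1 hK0).union (Set.countable_range c)

/-- generic forms -/
theorem gen_frm {K0 : Subfield ℂ} {X : Type} [Finite X] {r : ℕ} {T : Type}
    {c : T → ℂ} (hc : AlgebraicIndependent K0 c) (d : Fin r → ℕ) (e : Fin r → (X →₀ ℕ) → T)
    (he : ∀ i j μ ν, e i μ = e j ν → i = j ∧ μ = ν) :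
    Gen K0 d fun i => frm (d i) fun μ => c (e i μ) := by
  refine ⟨fun i => frm_hom _ _, ?_⟩
  have h1 : (fun x : (Σ i : Fin r, {μ : X →₀ ℕ // μ.degree = d i}) =>
      coeff x.2.1 ((fun i => frm (d i) fun μ => c (e i μ)) x.1)) = c ∘ fun x => e x.1 x.2.1 := by
    funext x
    exact coeff_frm _ x.2.2
  rw [h1]
  refine hc.comp _ ?_
  rintro ⟨i, μ, hμ⟩ ⟨j, ν, hν⟩ h
  obtain ⟨rfl, h2⟩ := he _ _ _ _ h
  have h3 : μ = ν := h2
  subst h3
  rfl

/-- the integer divides the degrees of the curves also for the unions -/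
theorem div_of_primes {N : ℕ} {X : Type} [Finite X] {r : ℕ} {κ : Type} [Field κ]
    (F : Fin r → MvPolynomial X κ)
    (H : ∀ P : Ideal (MvPolynomial X κ), IsHom P → P.IsPrime → (∀ i, F i ∈ P) →
      (∃ C : ℕ, ∀ t, hf P t ≤ C * (t + 1)) →
      ∃ K : ℕ, ∀ t ≥ K, (N : ℤ) ∣ (hf P (t + 1) : ℤ) - hf P t)
    {J : Ideal (MvPolynomial X κ)} (hJ : IsHom J) (hJF : ∀ i, F i ∈ J)
    (hgr : ∃ C : ℕ, ∀ t, hf J t ≤ C * (t + 1)) :
    ∃ K : ℕ, ∀ t ≥ K, (N : ℤ) ∣ (hf J (t + 1) : ℤ) - hf J t := by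
  obtain ⟨K, hK⟩ := div_of_prime N 1 (Ideal.span (Set.range F)) (fun P hP hPp hF hPgr => by
    obtain ⟨K, hK⟩ := H P hP hPp (fun i => hF (Ideal.subset_span ⟨i, rfl⟩)) hPgr
    exact ⟨K, fun t ht => by rw [one_mul]; exact hK t ht⟩) J hJ (by
      rw [Ideal.span_le]
      rintro _ ⟨i, rfl⟩
      exact hJF i) hgr
  exact ⟨K, fun t ht => by have := hK t ht; rwa [one_mul] at this⟩

/-- **Degeneration.** If the forms `f0` over `K` have the property that `N` divides the degrees of the
one-dimensional homogeneous ideals containing them, over all fields, then the same holds for very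
general forms. -/
theorem of_special {N : ℕ} {X : Type} [Finite X] {r : ℕ} {d : Fin r → ℕ} (K : Subfield ℂ)
    (hK : Countable K) (f0 : Fin r → MvPolynomial X K) (hf0 : ∀ i, (f0 i).IsHomogeneous (d i))
    (H : ∀ (κ : Type) [Field κ] (φ : K →+* κ) (P : Ideal (MvPolynomial X κ)), IsHom P →
      P.IsPrime → (∀ i, MvPolynomial.map φ (f0 i) ∈ P) →
      (∃ C : ℕ, ∀ t, hf P t ≤ C * (t + 1)) →
      ∃ K : ℕ, ∀ t ≥ K, (N : ℤ) ∣ (hf P (t + 1) : ℤ) - hf P t) : DivX N X r d := by
  rw [dv_iff]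
  refine ⟨K, hK, fun f hf' I hI hIp hdim hfI => ?_⟩
  obtain ⟨B, φ1, hB⟩ := specialise d K f hf'.1 hf'.2 f0 hf0
  obtain ⟨C, hC⟩ := growth2 I hI hdim.le
  obtain ⟨K', hK'⟩ := div_of_primes (N := N) (fun i => MvPolynomial.map φ1 (f0 i))
    (fun P hP hPp hF hgr => H _ φ1 P hP hPp hF hgr) (red_hom B hI) (hB I hfI)
    ⟨C, fun t => by rw [red_hf B hI]; exact hC t⟩
  exact ⟨K', fun t ht => by
    have := hK' t ht
    rwa [red_hf B hI, red_hf B hI] at this⟩

end Pool.Agent.Q76.DV
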