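import Mathlib
import Pool.Agent.Q76.DV.Sub

/-!
# Sums of degrees, more equations, hyperplane sections
-/

set_option autoImplicit false

open MvPolynomial Pool.Agent.TH922.KC

namespace Pool.Agent.Q76.DV

/-- **Sums of degrees.** -/
theorem divX_add {N : ℕ} {X : Type} [Finite X] {r : ℕ} (d : Fin r → ℕ) (i : Fin r) (a b : ℕ)
    (h1 : DivX N X r (Function.update d i a)) (h2 : DivX N X r (Function.update d i b)) :
    DivX N X r (Function.update d i (a + b)) := by
  classical
  obtain ⟨K1, hK1, h1⟩ := dv_iff.1 h1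
  obtain ⟨K2, hK2, h2⟩ := dv_iff.1 h2
  obtain ⟨K0, hK0, h10, h20⟩ := exists_field hK1 (fun x : K2 => (x : ℂ))
  obtain ⟨c, hc⟩ := exists_indep K0 (Fin r × Bool × (X →₀ ℕ))
  obtain ⟨K, hK, hK0K, hcK⟩ := exists_field hK0 c
  let c' : Fin r × Bool × (X →₀ ℕ) → K := fun x => ⟨c x, hcK x⟩
  let G1 : Fin r → MvPolynomial X K := fun j =>
    frm (Function.update d i a j) fun μ => c' (j, false, μ)
  let G2 : Fin r → MvPolynomial X K := fun j =>
    frm (Function.update d i b j) fun μ => c' (j, decide (j = i), μ)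
  have hG1 : Good N fun j => MvPolynomial.map K.subtype (G1 j) := by
    have e : (fun j => MvPolynomial.map K.subtype (G1 j)) = fun j =>
        frm (Function.update d i a j) fun μ => c (j, false, μ) := by
      funext j
      exact map_frm _ _ _
    rw [e]
    refine h1 _ (Gen.mono h10 (gen_frm hc _ (fun j μ => (j, false, μ)) ?_))
    intro i j μ ν h
    simp only [Prod.mk.injEq, true_and] at h
    exact h
  have hG2 : Good N fun j => MvPolynomial.map K.subtype (G2 j) := by
    have e : (fun j => MvPolynomial.map K.subtype (G2 j)) = fun j =>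
        frm (Function.update d i b j) fun μ => c (j, decide (j = i), μ) := by
      funext j
      exact map_frm _ _ _
    rw [e]
    refine h2 _ (Gen.mono (fun x hx => h20 ⟨x, hx⟩)
      (gen_frm hc _ (fun j μ => (j, decide (j = i), μ)) ?_))
    intro i j μ ν h
    simp only [Prod.mk.injEq] at h
    exact ⟨h.1, h.2.2⟩
  have hG12 : ∀ j, j ≠ i → G2 j = G1 j := by
    intro j hj
    simp only [G1, G2, Function.update_of_ne hj, decide_eq_false hj]
  refine of_special K hK (fun j => if j = i then G1 j * G2 j else G1 j) (fun j => ?_) ?_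
  · by_cases hj : j = i
    · rw [if_pos hj, hj, Function.update_self]
      have e1 := frm_hom (Function.update d i a i) fun μ => c' (i, false, μ)
      have e2 := frm_hom (Function.update d i b i) fun μ => c' (i, decide (i = i), μ)
      rw [Function.update_self] at e1 e2
      have e3 : G1 i = frm a fun μ => c' (i, false, μ) := by
        simp only [G1, Function.update_self]
      have e4 : G2 i = frm b fun μ => c' (i, decide (i = i), μ) := by
        simp only [G2, Function.update_self]
      rw [e3, e4]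
      exact e1.mul e2
    · rw [if_neg hj, Function.update_of_ne hj]
      have e1 := frm_hom (Function.update d i a j) fun μ => c' (j, false, μ)
      rw [Function.update_of_ne hj] at e1
      have e3 : G1 j = frm (d j) fun μ => c' (j, false, μ) := by
        simp only [G1, Function.update_of_ne hj]
      rw [e3]
      exact e1
  · intro κ _ φ P hP hPp hF hgr
    have h3 := hF i
    rw [if_pos rfl, map_mul] at h3
    rcases hPp.mem_or_mem h3 with h | h
    · refine transfer K G1 hG1 φ hP (fun j => ?_) hgr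
      by_cases hj : j = i
      · rw [hj]; exact h
      · have := hF j
        rwa [if_neg hj] at this
    · refine transfer K G2 hG2 φ hP (fun j => ?_) hgr
      by_cases hj : j = i
      · rw [hj]; exact h
      · have := hF j
        rw [if_neg hj] at this
        rw [hG12 j hj]
        exact this

/-- **More equations.** -/
theorem divX_more {N : ℕ} {X X' : Type} [Finite X] [Finite X'] {r r' : ℕ} {d : Fin r → ℕ}
    {d' : Fin r' → ℕ} (ι : X → X') (hι : Function.Injective ι) (e : Fin r → Fin r')
    (he : Function.Injective e) (hd : ∀ i, d' (e i) = d i) (y : Fin r' → X')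
    (hy : ∀ x', x' ∉ Set.range ι → ∃ j, j ∉ Set.range e ∧ y j = x')
    (h : DivX N X r d) : DivX N X' r' d' := by
  classical
  obtain ⟨K1, hK1, h1⟩ := dv_iff.1 h
  obtain ⟨c, hc⟩ := exists_indep K1 (Fin r × (X →₀ ℕ))
  obtain ⟨K, hK, hK1K, hcK⟩ := exists_field hK1 c
  let c' : Fin r × (X →₀ ℕ) → K := fun x => ⟨c x, hcK x⟩
  let G : Fin r → MvPolynomial X K := fun j => frm (d j) fun μ => c' (j, μ)
  have hG : Good N fun j => MvPolynomial.map K.subtype (G j) := by
    have e : (fun j => MvPolynomial.map K.subtype (G j)) = fun j =>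
        frm (d j) fun μ => c (j, μ) := by
      funext j
      exact map_frm _ _ _
    rw [e]
    refine h1 _ (gen_frm hc _ (fun j μ => (j, μ)) ?_)
    intro i j μ ν h
    simpa using h
  let f0 : Fin r' → MvPolynomial X' K := fun j =>
    if h : ∃ i, e i = j then rename ι (G h.choose) else MvPolynomial.X (y j) ^ d' j
  have hf1 : ∀ i, f0 (e i) = rename ι (G i) := by
    intro i
    have h2 : ∃ i', e i' = e i := ⟨i, rfl⟩
    simp only [f0, dif_pos h2]
    rw [he h2.choose_spec]
  have hf2 : ∀ j, j ∉ Set.range e → f0 j = MvPolynomial.X (y j) ^ d' j := by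
    intro j hj
    simp only [f0]
    rw [dif_neg (show ¬ ∃ i, e i = j from fun h => hj h)]
  refine of_special K hK f0 (fun j => ?_) ?_
  · by_cases hj : j ∈ Set.range e
    · obtain ⟨i, rfl⟩ := hj
      rw [hf1, hd]
      exact IsHomogeneous.rename_isHomogeneous (frm_hom _ _)
    · rw [hf2 j hj]
      exact isHomogeneous_X_pow _ _
  · intro κ _ φ P hP hPp hF hgr
    have hx : ∀ x', x' ∉ Set.range ι → (MvPolynomial.X x' : MvPolynomial X' κ) ∈ P := by
      intro x' hx'
      obtain ⟨j, hj, rfl⟩ := hy x' hx'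
      have h2 := hF j
      rw [hf2 j hj, map_pow, map_X] at h2
      exact hPp.mem_of_pow_mem _ h2
    obtain ⟨C, hC⟩ := hgr
    obtain ⟨K', hK'⟩ := transfer K G hG φ (hom_comap_rename (ι := ι) hP) (fun i => by
      rw [Ideal.mem_comap]
      have h2 := hF (e i)
      rw [hf1, MvPolynomial.map_rename] at h2
      exact h2) ⟨C, fun t => by rw [hf_sub hι hx]; exact hC t⟩
    exact ⟨K', fun t ht => by
      have := hK' t ht
      rwa [hf_sub hι hx, hf_sub hι hx] at this⟩

/-- **Hyperplane sections.** -/
theorem divX_section {N : ℕ} {X X' : Type} [Finite X] [Finite X'] {r : ℕ} {d : Fin r → ℕ}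
    (ι : X → X') (hι : Function.Injective ι) (h : DivX N X' r d) : DivX N X r d := by
  classical
  obtain ⟨K1, hK1, h1⟩ := dv_iff.1 h
  obtain ⟨c, hc⟩ := exists_indep K1 (Fin r × (X' →₀ ℕ))
  obtain ⟨K, hK, hK1K, hcK⟩ := exists_field hK1 c
  rw [dv_iff]
  refine ⟨K, hK, fun f hff I hI hIp hdim hfI => ?_⟩
  -- the family of all coefficients
  let a : (Σ i : Fin r, {μ : X →₀ ℕ // μ.degree = d i}) → ℂ := fun x => coeff x.2.1 (f x.1)
  let _ : Algebra K1 K := (Subfield.inclusion hK1K).toAlgebra
  have _ : IsScalarTower K1 K ℂ := IsScalarTower.of_algebraMap_eq fun x => rfl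
  have hind : AlgebraicIndependent K1 (Sum.elim a c) := by
    refine hc.sumElim_of_tower (S := K) ?_ hff.2
    rintro _ ⟨x, rfl⟩
    exact ⟨⟨c x, hcK x⟩, rfl⟩
  let e : (Σ i : Fin r, {μ : X' →₀ ℕ // μ.degree = d i}) →
      (Σ i : Fin r, {μ : X →₀ ℕ // μ.degree = d i}) ⊕ (Fin r × (X' →₀ ℕ)) := fun x =>
    if h : ∃ s : X →₀ ℕ, s.mapDomain ι = x.2.1 then
      Sum.inl ⟨x.1, ⟨h.choose, by
        rw [← Finsupp.degree_mapDomain ι, h.choose_spec]
        exact x.2.2⟩⟩
    else Sum.inr (x.1, x.2.1)
  have he : Function.Injective e := by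
    rintro ⟨i, μ, hμ⟩ ⟨j, ν, hν⟩ h
    simp only [e] at h
    split_ifs at h with h2 h3 h3
    · simp only [Sum.inl.injEq, Sigma.mk.injEq] at h
      obtain ⟨rfl, h4⟩ := h
      have h5 := congrArg Subtype.val (eq_of_heq h4)
      have h6 : μ = ν := by
        rw [← h2.choose_spec, ← h3.choose_spec]
        exact congrArg (Finsupp.mapDomain ι) h5
      subst h6
      rfl
    · simp only [Sum.inr.injEq, Prod.mk.injEq] at h
      obtain ⟨rfl, h4⟩ := h
      subst h4
      rfl
  let F : Fin r → MvPolynomial X' ℂ := fun i => tp X' ℂ (d i) fun μ => Sum.elim a c (e ⟨i, μ⟩)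
  have hFg : Gen K1 d F := by
    refine ⟨fun i => tp_hom _ _, ?_⟩
    have h2 : (fun x : (Σ i : Fin r, {μ : X' →₀ ℕ // μ.degree = d i}) => coeff x.2.1 (F x.1)) =
        Sum.elim a c ∘ e := by
      funext x
      simp only [F, Function.comp]
      rw [coeff_tp, dif_pos x.2.2]
    rw [h2]
    exact hind.comp e he
  have hFf : ∀ i, killCompl hι (F i) = f i := by
    intro i
    ext s
    rw [coeff_killCompl]
    simp only [F]
    rw [coeff_tp]
    split_ifs with h2
    · have h3 : ∃ s' : X →₀ ℕ, s'.mapDomain ι = s.mapDomain ι := ⟨s, rfl⟩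
      have h4 : h3.choose = s := Finsupp.mapDomain_injective hι h3.choose_spec
      simp only [e]
      rw [dif_pos h3]
      simp only [Sum.elim_inl, a]
      rw [h4]
    · rw [Finsupp.degree_mapDomain] at h2
      exact ((hff.1 i).coeff_eq_zero h2).symm
  let I' : Ideal (MvPolynomial X' ℂ) := I.comap (killCompl hι)
  have hI'h : IsHom I' := by
    intro p hp t
    have hp' : killCompl hι p ∈ I := hp
    change killCompl hι (homogeneousComponent t p) ∈ I
    rw [← hc_kill]
    exact hI _ hp' _
  have hI'p : I'.IsPrime := Ideal.comap_isPrime (killCompl hι) I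
  have hsurj : Function.Surjective ((Ideal.Quotient.mk I).comp
      (killCompl hι : MvPolynomial X' ℂ →ₐ[ℂ] MvPolynomial X ℂ).toRingHom) := by
    intro x
    obtain ⟨p, rfl⟩ := Ideal.Quotient.mk_surjective x
    refine ⟨rename ι p, ?_⟩
    change Ideal.Quotient.mk I (killCompl hι (rename ι p)) = _
    rw [killCompl_rename_app]
  have hker : RingHom.ker ((Ideal.Quotient.mk I).comp
      (killCompl hι : MvPolynomial X' ℂ →ₐ[ℂ] MvPolynomial X ℂ).toRingHom) = I' := by
    ext p
    rw [RingHom.mem_ker]
    exact Ideal.Quotient.eq_zero_iff_mem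
  have hdim' : ringKrullDim (MvPolynomial X' ℂ ⧸ I') = 2 := by
    rw [← hdim, ← hker]
    exact ringKrullDim_eq_of_ringEquiv (RingHom.quotientKerEquivOfSurjective hsurj)
  have hcom : I'.comap (rename ι : MvPolynomial X ℂ →ₐ[ℂ] MvPolynomial X' ℂ) = I := by
    ext p
    change killCompl hι (rename ι p) ∈ I ↔ _
    rw [killCompl_rename_app]
  have hx : ∀ x', x' ∉ Set.range ι → (MvPolynomial.X x' : MvPolynomial X' ℂ) ∈ I' := by
    intro x' hx'
    change killCompl hι (MvPolynomial.X x') ∈ I
    rw [killCompl, aeval_X, dif_neg hx']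
    exact I.zero_mem
  have hhf : ∀ t, hf I t = hf I' t := by
    intro t
    rw [← hf_sub hι hx t, hcom]
  obtain ⟨K', hK'⟩ := h1 F hFg I' hI'h hI'p hdim' fun i => by
    change killCompl hι (F i) ∈ I
    rw [hFf]
    exact hfI i
  exact ⟨K', fun t ht => by
    have := hK' t ht
    rwa [← hhf, ← hhf] at this⟩

end Pool.Agent.Q76.DV
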