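import Mathlib
import Pool.Agent.Q76.DV.Thm

/-!
# Several divisors at the same time
-/

set_option autoImplicit false

open MvPolynomial Pool.Agent.TH922.KC

namespace Pool.Agent.Q76.DV

theorem lcm_dvd_int {m : ℕ} (N : Fin m → ℕ) (z : ℤ) (h : ∀ i, (N i : ℤ) ∣ z) :
    ((Finset.univ.lcm N : ℕ) : ℤ) ∣ z := by
  rw [Int.natCast_dvd]
  refine Finset.lcm_dvd fun i _ => ?_
  rw [← Int.natCast_dvd]
  exact h i

theorem divX_lcm {X : Type} [Finite X] {r : ℕ} {d : Fin r → ℕ} {m : ℕ} (N : Fin m → ℕ)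
    (h : ∀ i, DivX (N i) X r d) : DivX (Finset.univ.lcm N) X r d := by
  classical
  choose K hK hKN using fun i => dv_iff.1 (h i)
  rw [dv_iff]
  have hc : (⋃ i, (K i : Set ℂ)).Countable := Set.countable_iUnion fun i =>
    Set.countable_coe_iff.1 (hK i)
  refine ⟨Subfield.closure (⋃ i, (K i : Set ℂ)), countable_closure hc,
    fun f hf I hI hIp hdim hfI => ?_⟩
  have h1 : ∀ i, Gen (K i) d f := fun i => Gen.mono (fun x hx =>
    Subfield.subset_closure (Set.mem_iUnion.2 ⟨i, hx⟩)) hf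
  choose k hk using fun i => hKN i f (h1 i) I hI hIp hdim hfI
  refine ⟨Finset.univ.sup k, fun t ht => lcm_dvd_int _ _ fun i => ?_⟩
  exact hk i t ((Finset.le_sup (Finset.mem_univ i)).trans ht)

theorem divX_of_dvd {N N' : ℕ} (hN : N' ∣ N) {X : Type} [Finite X] {r : ℕ} {d : Fin r → ℕ}
    (h : DivX N X r d) : DivX N' X r d := by
  obtain ⟨K, hK, h1⟩ := dv_iff.1 h
  refine dv_iff.2 ⟨K, hK, fun f hf I hI hIp hdim hfI => ?_⟩
  obtain ⟨k, hk⟩ := h1 f hf I hI hIp hdim hfI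
  exact ⟨k, fun t ht => (Int.natCast_dvd_natCast.2 hN).trans (hk t ht)⟩

end Pool.Agent.Q76.DV
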