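import Mathlib
import Pool.Agent.Q76.DV.Lcm
import Pool.Agent.Q76.DV.Law
import Pool.Agent.TH922.KC.Fin2

/-!
# One degree divisible by a high power of `N`
-/

set_option autoImplicit false

open MvPolynomial Pool.Agent.TH922.KC

namespace Pool.Agent.Q76.DV

theorem divX_one (X : Type) (r : ℕ) (d : Fin r → ℕ) : DivX 1 X r d :=
  ⟨fun _ => 1, fun _ => one_ne_zero, fun _ _ _ _ _ _ _ _ => ⟨0, fun _ _ => by simp⟩⟩

theorem divX_of_pow {X : Type} [Finite X] {r : ℕ} {d : Fin r → ℕ} (N : ℕ)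
    (h : ∀ p s : ℕ, p.Prime → 0 < s → p ^ s ∣ N → DivX (p ^ s) X r d) (hN : 0 < N) :
    DivX N X r d := by
  classical
  let Nf : Fin (N + 1) → ℕ := fun i => if IsPrimePow (i : ℕ) ∧ (i : ℕ) ∣ N then i else 1
  have h1 : ∀ i, DivX (Nf i) X r d := by
    intro i
    by_cases hi : IsPrimePow (i : ℕ) ∧ (i : ℕ) ∣ N
    · simp only [Nf, if_pos hi]
      obtain ⟨⟨p, s, hp, hs, hps⟩, hd⟩ := hi
      rw [← hps]
      exact h p s (Nat.prime_iff.2 hp) hs (hps ▸ hd)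
    · simp only [Nf, if_neg hi]
      exact divX_one X r d
  refine divX_of_dvd ?_ (divX_lcm Nf h1)
  rw [Nat.dvd_iff_prime_pow_dvd_dvd]
  intro p s hp hd
  rcases Nat.eq_zero_or_pos s with rfl | hs
  · simp
  · have h2 : p ^ s < N + 1 := Nat.lt_succ_of_le (Nat.le_of_dvd hN hd)
    have h3 : IsPrimePow (((⟨p ^ s, h2⟩ : Fin (N + 1)) : ℕ)) ∧
        ((⟨p ^ s, h2⟩ : Fin (N + 1)) : ℕ) ∣ N := ⟨⟨p, s, hp.prime, hs, rfl⟩, hd⟩
    have h4 : Nf ⟨p ^ s, h2⟩ = p ^ s := by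
      simp only [Nf]
      rw [if_pos h3]
    exact h4 ▸ Finset.dvd_lcm (Finset.mem_univ _)

/-- Kollár -/
theorem divX_kol (n r N : ℕ) (hn : 0 < n) (hN : 0 < N) (d : Fin r → ℕ) (i : Fin r)
    (hi : N ^ (n * (1 + Nat.log 2 n)) ∣ d i) : DivX N (Fin (n + r + 1)) r d := by
  classical
  refine divX_of_pow N (fun p s hp hs hps => ?_) hN
  obtain ⟨bad, hbad, h⟩ := Pool.Agent.TH922.KC.main n r d
  refine ⟨bad, hbad, fun f hf hb I hI hIp hdim hfI => ?_⟩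
  have hj : n ≤ p ^ (Nat.log p n + 1) - 1 := by
    have := Nat.lt_pow_succ_log_self hp.one_lt n
    rw [Nat.succ_eq_add_one] at this
    omega
  have h0 : p ^ (n * (s + Nat.log p n)) ∣ d i := by
    have h01 := (pow_dvd_pow_of_dvd hps (n * (1 + Nat.log 2 n))).trans hi
    rw [← pow_mul] at h01
    refine (pow_dvd_pow p ?_).trans h01
    · have h1 : Nat.log p n ≤ Nat.log 2 n := Nat.log_anti_left (by norm_num) hp.two_le
      calc n * (s + Nat.log p n) ≤ n * (s + s * Nat.log 2 n) := by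
            gcongr
            exact h1.trans (Nat.le_mul_of_pos_left _ hs)
        _ = s * (n * (1 + Nat.log 2 n)) := by ring
  have hcard : 1 ≤ (Finset.univ.filter fun i => p ^ (n * (s + Nat.log p n)) ∣ d i).card :=
    Finset.card_pos.mpr ⟨i, Finset.mem_filter.mpr ⟨Finset.mem_univ _, h0⟩⟩
  obtain ⟨K, hK⟩ := h f hf hb I hI hIp hdim hfI p (s + Nat.log p n) (Nat.log p n) hp
    (hj.trans (Nat.le_mul_of_pos_left _ hcard))
  refine ⟨K, fun k hk => ?_⟩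
  have e1 := hK k hk
  have e2 : ((p ^ (s + Nat.log p n) : ℕ) : ℤ) =
      ((p ^ (Nat.log p n) : ℕ) : ℤ) * ((p ^ s : ℕ) : ℤ) := by
    push_cast; ring
  rw [e2] at e1
  have e3 : ((p ^ (Nat.log p n) : ℕ) : ℤ) ≠ 0 := by exact_mod_cast (pow_pos hp.pos _).ne'
  exact (mul_dvd_mul_iff_left e3).mp e1

end Pool.Agent.Q76.DV
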