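import Mathlib
import Pool.Agent.Q76.DV.Thm

/-!
# The degree is divisible by the common divisor of the degrees of the curves (one equation)
-/

set_option autoImplicit false

open MvPolynomial Pool.Agent.TH922.KC

namespace Pool.Agent.Q76.DV

theorem card_It3 (t : ℕ) : Fintype.card (It (Fin 3) t) = (t + 2).choose 2 := by
  classical
  have h1 : Fintype.card (It (Fin 3) t) = (Finset.univ.finsuppAntidiag t : Finset (Fin 3 →₀ ℕ)).card := by
    refine Fintype.card_of_subtype _ fun μ => ?_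
    rw [Finset.mem_finsuppAntidiag]
    simp [Finsupp.degree_eq_sum]
  rw [h1, Finset.card_finsuppAntidiag_nat_eq_choose]
  simp only [Finset.card_univ, Fintype.card_fin]
  have h2 : 3 + t - 1 = t + 2 := by omega
  rw [h2]
  exact (Nat.choose_symm_of_eq_add (by ring)).symm

theorem hf_bot3 (t : ℕ) : hf (⊥ : Ideal (MvPolynomial (Fin 3) ℂ)) t = (t + 2).choose 2 := by
  have A := hf_add (⊥ : Ideal (MvPolynomial (Fin 3) ℂ)) t
  have e : KJ (⊥ : Ideal (MvPolynomial (Fin 3) ℂ)) t = ⊥ := by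
    rw [eq_bot_iff]
    rintro p ⟨_, hp⟩
    simpa using hp
  rw [e, finrank_H, card_It3] at A
  simpa using A

theorem choose_step (t : ℕ) : (t + 1 + 2).choose 2 = (t + 2).choose 2 + (t + 2) := by
  rw [Nat.choose_succ_succ' (t + 2) 1, Nat.choose_one_right]
  ring

theorem hf_plane {f : MvPolynomial (Fin 3) ℂ} {d : ℕ} (hf0 : f ≠ 0) (hfd : f.IsHomogeneous d)
    (t : ℕ) : (t + d + 2).choose 2 = hf (Ideal.span {f}) (t + d) + (t + 2).choose 2 := by
  have hb : IsHom (⊥ : Ideal (MvPolynomial (Fin 3) ℂ)) := by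
    intro p hp k
    rw [Ideal.mem_bot] at hp ⊢
    rw [hp, map_zero]
  have h := hf_exact hb hfd hf0 t
  rw [bot_sup_eq, hf_bot3] at h
  have e : col ⊥ f = ⊥ := by
    ext p
    rw [mem_col, Ideal.mem_bot, Ideal.mem_bot, mul_eq_zero]
    exact ⟨fun h => h.resolve_left hf0, Or.inr⟩
  rw [e, hf_bot3] at h
  exact h

theorem span_hom {f : MvPolynomial (Fin 3) ℂ} {d : ℕ} (hfd : f.IsHomogeneous d) :
    IsHom (Ideal.span {f}) := by
  have hb : IsHom (⊥ : Ideal (MvPolynomial (Fin 3) ℂ)) := by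
    intro p hp k
    rw [Ideal.mem_bot] at hp ⊢
    rw [hp, map_zero]
  have := hb.sup hfd
  rwa [bot_sup_eq] at this

theorem slope {f : MvPolynomial (Fin 3) ℂ} {d : ℕ} (hf0 : f ≠ 0) (hfd : f.IsHomogeneous d)
    (t : ℕ) : hf (Ideal.span {f}) (t + d + 1) = hf (Ideal.span {f}) (t + d) + d := by
  have h1 := hf_plane hf0 hfd t
  have h2 := hf_plane hf0 hfd (t + 1)
  have h3 : t + 1 + d = t + d + 1 := by ring
  rw [h3] at h2
  rw [choose_step, choose_step] at h2
  omega

theorem good_plane {N : ℕ} {f : Fin 1 → MvPolynomial (Fin 3) ℂ} {d : ℕ} (hf0 : f 0 ≠ 0)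
    (hfd : (f 0).IsHomogeneous d) (h : Good N f) : N ∣ d := by
  have hgr : ∀ t, hf (Ideal.span {f 0}) t ≤ hf (Ideal.span {f 0}) d + (d + 2).choose 2 + d * t := by
    intro t
    rcases le_total d t with h1 | h1
    · obtain ⟨s, rfl⟩ := Nat.exists_eq_add_of_le' h1
      clear h1
      induction s with
      | zero => 
        rw [zero_add]
        omega
      | succ s ih =>
        have h2 := slope hf0 hfd s
        have h3 : s + 1 + d = s + d + 1 := by ring
        rw [h3, h2]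
        have h4 : d * (s + d + 1) = d * (s + d) + d := by ring
        omega
    · have h2 := hf_le (Ideal.span {f 0}) t
      rw [finrank_H, card_It3] at h2
      have h3 : (t + 2).choose 2 ≤ (d + 2).choose 2 := Nat.choose_le_choose 2 (by omega)
      omega
  obtain ⟨K, hK⟩ := h.all (span_hom hfd) (fun i => by
    rw [Subsingleton.elim i 0]
    exact Ideal.mem_span_singleton_self _)
    ⟨hf (Ideal.span {f 0}) d + (d + 2).choose 2 + d, fun t => (hgr t).trans (by nlinarith)⟩
  have h1 := hK (K + d) (by omega)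
  rw [slope hf0 hfd K] at h1
  push_cast at h1
  rw [add_sub_cancel_left] at h1
  exact_mod_cast h1

theorem dvd_of_divX {N n : ℕ} {d : Fin 1 → ℕ} (hn : 0 < n) (h : DivX N (Fin (n + 1 + 1)) 1 d) :
    N ∣ d 0 := by
  have h1 : DivX N (Fin 3) 1 d := divX_section (X' := Fin (n + 1 + 1))
    (Fin.castLE (by omega)) (Fin.castLE_injective _) h
  obtain ⟨K, hK, hG⟩ := dv_iff.1 h1
  obtain ⟨c, hc⟩ := exists_indep K (Σ i : Fin 1, {μ : Fin 3 →₀ ℕ // μ.degree = d i})
  let f : Fin 1 → MvPolynomial (Fin 3) ℂ := fun i => tp (Fin 3) ℂ (d i) fun μ => c ⟨i, μ⟩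
  have hf1 : ∀ i (μ : It (Fin 3) (d i)), coeff μ.1 (f i) = c ⟨i, μ⟩ := by
    intro i μ
    simp only [f]
    rw [coeff_tp, dif_pos μ.2]
  have hgen : Gen K d f := by
    refine ⟨fun i => tp_hom _ _, ?_⟩
    have e : (fun x : (Σ i : Fin 1, {μ : Fin 3 →₀ ℕ // μ.degree = d i}) => coeff x.2.1 (f x.1)) = c := by
      funext x
      exact hf1 x.1 x.2
    rw [e]
    exact hc
  have hf0 : f 0 ≠ 0 := by
    intro h0
    have h2 := hf1 0 ⟨Finsupp.single 0 (d 0), by simp⟩
    rw [h0, coeff_zero] at h2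
    exact hc.ne_zero _ h2.symm
  exact good_plane hf0 (hgen.1 0) (hG f hgen)

end Pool.Agent.Q76.DV
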