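import Mathlib
import Pool.Agent.Q76.DV.Kol
import Pool.Agent.Q76.DV.Nec

/-!
# The divisibility law for large degrees
-/

set_option autoImplicit false

open MvPolynomial Pool.Agent.TH922.KC

namespace Pool.Agent.Q76.DV

theorem law_all (n r N : ℕ) (hn : 0 < n) (hN : 0 < N) :
    ∃ (D : ℕ) (G : Finset (Fin r → ℕ)),
      (∀ g ∈ G, ∀ i, g i ∣ N ^ (n * (1 + Nat.log 2 n))) ∧
      (∀ d, DivX N (Fin (n + r + 1)) r d → ∃ g ∈ G, ∀ i, g i ∣ d i) ∧
      ∀ d : Fin r → ℕ, (∀ i, D < d i) → (∃ g ∈ G, ∀ i, g i ∣ d i) → DivX N (Fin (n + r + 1)) r d :=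
  law (fun d => DivX N (Fin (n + r + 1)) r d) _ (pow_pos hN _)
    (fun d i a b h1 h2 => divX_add d i a b h1 h2) (fun d i h => divX_kol n r N hn hN d i h)

theorem law_hyp (n N : ℕ) (hn : 0 < n) (hN : 0 < N) :
    ∃ D g : ℕ, N ∣ g ∧ g ∣ N ^ (n * (1 + Nat.log 2 n)) ∧
      (∀ d : Fin 1 → ℕ, DivX N (Fin (n + 1 + 1)) 1 d → g ∣ d 0) ∧
      ∀ d : Fin 1 → ℕ, D < d 0 → g ∣ d 0 → DivX N (Fin (n + 1 + 1)) 1 d := by
  have hd : ∀ d : Fin 1 → ℕ, d = fun _ => d 0 := by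
    intro d
    funext i
    rw [Subsingleton.elim i 0]
  have hu : ∀ a b : ℕ, Function.update (fun _ : Fin 1 => a) 0 b = fun _ => b := by
    intro a b
    funext i
    rw [Subsingleton.elim i 0, Function.update_self]
  obtain ⟨D, g, h1, h2, h3⟩ := law_one (fun a => DivX N (Fin (n + 1 + 1)) 1 fun _ => a)
    (N ^ (n * (1 + Nat.log 2 n))) (fun a b ha hb => by
      have := divX_add (N := N) (X := Fin (n + 1 + 1)) (fun _ : Fin 1 => a) 0 a b
        (by rwa [hu]) (by rwa [hu])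
      rwa [hu] at this) (fun a ha => divX_kol n 1 N hn hN _ 0 ha)
  refine ⟨D, g, ?_, h1, fun d h => h2 _ (by rwa [hd d] at h), fun d hD hg => ?_⟩
  · have h4 : DivX N (Fin (n + 1 + 1)) 1 fun _ => (D + 1) * g :=
      h3 ((D + 1) * g) (by
        have : 0 < g := Nat.pos_of_dvd_of_pos h1 (pow_pos hN _)
        nlinarith) (dvd_mul_left _ _)
    have h5 : DivX N (Fin (n + 1 + 1)) 1 fun _ => (D + 2) * g :=
      h3 ((D + 2) * g) (by
        have : 0 < g := Nat.pos_of_dvd_of_pos h1 (pow_pos hN _)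
        nlinarith) (dvd_mul_left _ _)
    have h6 := dvd_of_divX hn h4
    have h7 := dvd_of_divX hn h5
    have h8 := (Nat.dvd_sub h7 h6)
    have h9 : (D + 2) * g - (D + 1) * g = g := by
      rw [← Nat.sub_mul]
      have : D + 2 - (D + 1) = 1 := by omega
      rw [this, one_mul]
    rwa [h9] at h8
  · rw [hd d]
    exact h3 _ hD hg

end Pool.Agent.Q76.DV
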