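import Mathlib
import Pool.Agent.Q76.DV.Kol

/-!
# Monotonicity in the dimension and in the tuple of degrees
-/

set_option autoImplicit false

open MvPolynomial Pool.Agent.TH922.KC

namespace Pool.Agent.Q76.DV

theorem sec_fin {N n n' r : ℕ} (hn : n ≤ n') {d : Fin r → ℕ}
    (h : DivX N (Fin (n' + r + 1)) r d) : DivX N (Fin (n + r + 1)) r d :=
  divX_section (Fin.castLE (by omega)) (Fin.castLE_injective _) h

theorem more_fin {N n r r' : ℕ} (e : Fin r → Fin r') (he : Function.Injective e)
    (d : Fin r' → ℕ) (h : DivX N (Fin (n + r + 1)) r fun i => d (e i)) :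
    DivX N (Fin (n + r' + 1)) r' d := by
  classical
  have hr : r ≤ r' := by simpa using Fintype.card_le_of_injective e he
  let ι : Fin (n + r + 1) → Fin (n + r' + 1) := Fin.castLE (by omega)
  have hι : Function.Injective ι := Fin.castLE_injective _
  have h1 : Fintype.card {j : Fin r' // ¬ ∃ i, e i = j} = r' - r := by
    rw [Fintype.card_subtype_compl, Fintype.card_fin]
    congr 1
    rw [Fintype.card_subtype]
    have : (Finset.univ.filter fun j => ∃ i, e i = j) = Finset.univ.image e := by
      ext j; simp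
    rw [this, Finset.card_image_of_injective _ he, Finset.card_univ, Fintype.card_fin]
  have h2 : Fintype.card {j : Fin (n + r' + 1) // ¬ ∃ i, ι i = j} = r' - r := by
    rw [Fintype.card_subtype_compl, Fintype.card_fin]
    have : Fintype.card {j : Fin (n + r' + 1) // ∃ i, ι i = j} = n + r + 1 := by
      rw [Fintype.card_subtype]
      have : (Finset.univ.filter fun j => ∃ i, ι i = j) = Finset.univ.image ι := by
        ext j; simp
      rw [this, Finset.card_image_of_injective _ hι, Finset.card_univ, Fintype.card_fin]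
    rw [this]
    omega
  let E := Fintype.equivOfCardEq (h1.trans h2.symm)
  let y : Fin r' → Fin (n + r' + 1) := fun j => if h : ¬ ∃ i, e i = j then (E ⟨j, h⟩).1 else 0
  refine divX_more ι hι e he (fun i => rfl) y (fun x' hx' => ?_) h
  have hx'' : ¬ ∃ i, ι i = x' := fun ⟨i, hi⟩ => hx' ⟨i, hi⟩
  refine ⟨(E.symm ⟨x', hx''⟩).1, fun ⟨i, hi⟩ => (E.symm ⟨x', hx''⟩).2 ⟨i, hi⟩, ?_⟩
  simp only [y]
  rw [dif_pos (E.symm ⟨x', hx''⟩).2]
  simp

/-- if every prime divides at most `s` of the degrees, the case of `s` equations is enough -/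
theorem from_s {n s : ℕ} {D : ℕ}
    (hQ : ∀ d : Fin s → ℕ, (∀ i, D < d i) → DivX (∏ i, d i) (Fin (n + s + 1)) s d)
    {r : ℕ} (hr : s ≤ r) (d : Fin r → ℕ) (hd : ∀ i, D < d i)
    (hp : ∀ p : ℕ, p.Prime → (Finset.univ.filter fun i => p ∣ d i).card ≤ s) :
    DivX (∏ i, d i) (Fin (n + r + 1)) r d := by
  classical
  have hpos : 0 < ∏ i, d i := Finset.prod_pos fun i _ => (Nat.zero_le _).trans_lt (hd i)
  refine divX_of_pow _ (fun p k hpp hk hpk => ?_) hpos
  obtain ⟨t, ht1, ht2⟩ := Finset.exists_subsuperset_card_eq (s := Finset.univ.filter fun i => p ∣ d i)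
    (t := Finset.univ) (n := s) (Finset.subset_univ _) (hp p hpp) (by simpa using hr)
  let e : Fin s ↪o Fin r := t.orderEmbOfFin ht2.2
  have he : Finset.univ.image e = t := by
    ext j
    simp only [Finset.mem_image, Finset.mem_univ, true_and]
    constructor
    · rintro ⟨i, rfl⟩
      exact Finset.orderEmbOfFin_mem _ _ _
    · intro hj
      have : j ∈ Set.range e := by
        rw [Finset.range_orderEmbOfFin]
        exact hj
      exact this
  refine more_fin e e.injective d ?_
  refine divX_of_dvd ?_ (hQ (fun i => d (e i)) fun i => hd _)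
  have h1 : ∏ i, d (e i) = ∏ j ∈ t, d j := by
    rw [← he, Finset.prod_image fun a _ b _ h => e.injective h]
  rw [h1]
  have h2 : ∏ i, d i = (∏ j ∈ t, d j) * ∏ j ∈ tᶜ, d j := (Finset.prod_mul_prod_compl t d).symm
  rw [h2] at hpk
  refine (Nat.Coprime.pow_left k ?_).dvd_of_dvd_mul_right hpk
  refine Nat.Coprime.prod_right fun j hj => ?_
  rw [Nat.Prime.coprime_iff_not_dvd hpp]
  intro hdj
  exact (Finset.mem_compl.1 hj) (ht1 (Finset.mem_filter.2 ⟨Finset.mem_univ _, hdj⟩))

end Pool.Agent.Q76.DV
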