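import Mathlib
import Pool.Agent.Q76.DV.Fin

/-!
# Hypersurfaces: all large degrees against prime power degrees
-/

set_option autoImplicit false

namespace Pool.Agent.Q76.DV

theorem divX_mul {N : ℕ} {X : Type} [Finite X] (a : ℕ) (h : DivX N X 1 fun _ => a) (m : ℕ) :
    DivX N X 1 fun _ => (m + 1) * a := by
  have hu : ∀ a b : ℕ, Function.update (fun _ : Fin 1 => a) 0 b = fun _ => b := by
    intro a b
    funext i
    rw [Subsingleton.elim i 0, Function.update_self]
  induction m with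
  | zero => simpa using h
  | succ m ih =>
    have := divX_add (N := N) (X := X) (fun _ : Fin 1 => a) 0 ((m + 1) * a) a
      (by rwa [hu]) (by rwa [hu])
    rw [hu] at this
    have h2 : (m + 1 + 1) * a = (m + 1) * a + a := by ring
    rw [h2]
    exact this

theorem pp (n : ℕ) (hn : 0 < n) :
    (∃ D : ℕ, ∀ d : ℕ, D < d → DivX d (Fin (n + 1 + 1)) 1 fun _ => d) ↔
    ∃ D : ℕ, ∀ p k : ℕ, p.Prime →
      (D < p ^ k → DivX (p ^ k) (Fin (n + 1 + 1)) 1 fun _ => p ^ k) ∧
      (p ^ k ≤ D → ∃ e : ℕ, ¬ p ^ (k + 1) ∣ e ∧ DivX (p ^ k) (Fin (n + 1 + 1)) 1 fun _ => e) := by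
  classical
  constructor
  · rintro ⟨D, hD⟩
    refine ⟨D, fun p k hp => ⟨fun h => hD _ h, fun _ => ⟨p ^ k * (p * D + 1), ?_, ?_⟩⟩⟩
    · rw [pow_succ]
      intro h
      have h1 := Nat.dvd_of_mul_dvd_mul_left (pow_pos hp.pos k) h
      have h2 : p ∣ 1 := (Nat.dvd_add_right (dvd_mul_right p D)).1 h1
      exact hp.one_lt.ne' (Nat.dvd_one.1 h2)
    · refine divX_of_dvd (dvd_mul_right _ _) (hD _ ?_)
      have h1 : 1 ≤ p ^ k := Nat.one_le_pow _ _ hp.pos
      have h2 : 1 ≤ p := hp.pos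
      calc D < p * D + 1 := by nlinarith
        _ ≤ p ^ k * (p * D + 1) := Nat.le_mul_of_pos_left _ h1
  · rintro ⟨D, hD⟩
    choose! T g hg1 hg2 hg3 hg4 using fun (q : ℕ) (hq : 0 < q) => law_hyp n q hn hq
    refine ⟨max D ((Finset.range (D + 1)).sup T), fun d hd => ?_⟩
    have hd0 : d ≠ 0 := by
      have := (Nat.zero_le _).trans_lt hd
      omega
    refine divX_of_pow d (fun p s hp hs hps => ?_) (Nat.pos_of_ne_zero hd0)
    obtain ⟨k, m, hm, hdk⟩ := Nat.exists_eq_pow_mul_and_not_dvd hd0 p hp.one_lt.ne'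
    have hsk : s ≤ k := by
      by_contra hc
      have h1 : p ^ (k + 1) ∣ d := (pow_dvd_pow p (by omega)).trans hps
      rw [hdk, pow_succ] at h1
      exact hm (Nat.dvd_of_mul_dvd_mul_left (pow_pos hp.pos k) h1)
    refine divX_of_dvd (pow_dvd_pow p hsk) ?_
    have hq : 0 < p ^ k := pow_pos hp.pos k
    rcases lt_or_ge D (p ^ k) with h | h
    · have h1 := (hD p k hp).1 h
      have hm0 : m ≠ 0 := by
        rintro rfl
        exact hm (dvd_zero _)
      obtain ⟨m', rfl⟩ := Nat.exists_eq_succ_of_ne_zero hm0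
      have h2 := divX_mul _ h1 m'
      rw [hdk, mul_comm]
      exact h2
    · obtain ⟨e, he1, he2⟩ := (hD p k hp).2 h
      have h1 : g (p ^ k) ∣ e := hg3 _ hq _ he2
      have h0 := hg2 _ hq
      rw [← pow_mul] at h0
      obtain ⟨j, hj, hjg⟩ := (Nat.dvd_prime_pow hp).1 h0
      have h2 : g (p ^ k) = p ^ k := by
        have h3 := hg1 _ hq
        rw [hjg] at h3 h1 ⊢
        have h4 : k ≤ j := (Nat.pow_dvd_pow_iff_le_right hp.one_lt).1 h3
        have h5 : j < k + 1 := by
          by_contra hc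
          exact he1 ((pow_dvd_pow p (by omega)).trans h1)
        have : j = k := by omega
        rw [this]
      refine hg4 _ hq _ ?_ ?_
      · have h3 : T (p ^ k) ≤ (Finset.range (D + 1)).sup T :=
          Finset.le_sup (Finset.mem_range.2 (by omega))
        exact (h3.trans (le_max_right _ _)).trans_lt hd
      · rw [h2, hdk]
        exact dvd_mul_right _ _

end Pool.Agent.Q76.DV
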