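import Mathlib
import Pool.Agent.Q76.DV.Law
import Pool.Agent.Q76.DV.Kol

/-!
# Reduction to one prime and to tuples of powers of this prime and of bounded numbers
-/

set_option autoImplicit false

open Function

namespace Pool.Agent.Q76.DV

theorem semi_mul (T : AddSubsemigroup ℕ) {a : ℕ} (ha : a ∈ T) (m : ℕ) : (m + 1) * a ∈ T := by
  induction m with
  | zero => simpa using ha
  | succ m ih =>
    have : (m + 1 + 1) * a = (m + 1) * a + a := by ring
    rw [this]
    exact T.add_mem ih ha

theorem semi_two (T : AddSubsemigroup ℕ) {a b : ℕ} (ha : a ∈ T) (hb : b ∈ T) (u v : ℕ)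
    (h : 0 < u + v) : u * a + v * b ∈ T := by
  rcases u with _ | u
  · rcases v with _ | v
    · omega
    · simpa using semi_mul T hb v
  · rcases v with _ | v
    · simpa using semi_mul T ha u
    · exact T.add_mem (semi_mul T ha u) (semi_mul T hb v)

theorem gen {r : ℕ} {P : (Fin r → ℕ) → Prop}
    (hadd : ∀ d i a b, P (update d i a) → P (update d i b) → P (update d i (a + b)))
    (S : Fin r → Set ℕ) (hS : ∀ e : Fin r → ℕ, (∀ i, e i ∈ S i) → P e) (e : Fin r → ℕ)
    (he : ∀ i, e i ∈ AddSubsemigroup.closure (S i)) : P e := by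
  classical
  have key : ∀ t : Finset (Fin r), ∀ e : Fin r → ℕ,
      (∀ i ∈ t, e i ∈ AddSubsemigroup.closure (S i)) → (∀ i ∉ t, e i ∈ S i) → P e := by
    intro t
    induction t using Finset.induction_on with
    | empty => exact fun e _ h => hS e fun i => h i (by simp)
    | insert i t hi ih =>
      intro e h1 h2
      have h3 : ∀ x ∈ AddSubsemigroup.closure (S i), P (update e i x) := by
        intro x hx
        induction hx using AddSubsemigroup.closure_induction with
        | mem x hx =>
          refine ih _ (fun j hj => ?_) (fun j hj => ?_)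
          · have hji : j ≠ i := fun h => hi (h ▸ hj)
            rw [update_of_ne hji]
            exact h1 j (Finset.mem_insert_of_mem hj)
          · by_cases hji : j = i
            · subst hji
              rwa [update_self]
            · rw [update_of_ne hji]
              exact h2 j (by simp [hji, hj])
        | add x y _ _ hx hy => exact hadd e i x y hx hy
      have h4 := h3 (e i) (h1 i (Finset.mem_insert_self _ _))
      rwa [update_eq_self] at h4
  exact key Finset.univ e (fun i _ => he i) (fun i hi => absurd (Finset.mem_univ i) hi)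

theorem two_coprime (D p : ℕ) (hp : p.Prime) :
    ∃ a b : ℕ, D < a ∧ a ≤ D + 4 ∧ D < b ∧ b ≤ D + 4 ∧ ¬ p ∣ a ∧ ¬ p ∣ b ∧ a.gcd b = 1 := by
  have hsub : ∀ x y : ℕ, x ≤ y → p ∣ x → p ∣ y → p ∣ y - x := fun x y _ h1 h2 => Nat.dvd_sub h2 h1
  rcases hp.eq_two_or_odd' with rfl | hodd
  · rcases Nat.even_or_odd D with ⟨c, hc⟩ | ⟨c, hc⟩
    · refine ⟨D + 1, D + 3, by omega, by omega, by omega, by omega, by omega, by omega, ?_⟩
      have h1 : (D + 1).gcd (D + 3) ∣ 2 := by
        have := Nat.dvd_sub (Nat.gcd_dvd_right (D + 1) (D + 3)) (Nat.gcd_dvd_left (D + 1) (D + 3))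
        have h2 : D + 3 - (D + 1) = 2 := by omega
        rwa [h2] at this
      rcases (Nat.dvd_prime Nat.prime_two).1 h1 with h | h
      · exact h
      · have := Nat.gcd_dvd_left (D + 1) (D + 3)
        rw [h] at this
        omega
    · refine ⟨D + 2, D + 4, by omega, by omega, by omega, by omega, by omega, by omega, ?_⟩
      have h1 : (D + 2).gcd (D + 4) ∣ 2 := by
        have := Nat.dvd_sub (Nat.gcd_dvd_right (D + 2) (D + 4)) (Nat.gcd_dvd_left (D + 2) (D + 4))
        have h2 : D + 4 - (D + 2) = 2 := by omega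
        rwa [h2] at this
      rcases (Nat.dvd_prime Nat.prime_two).1 h1 with h | h
      · exact h
      · have := Nat.gcd_dvd_left (D + 2) (D + 4)
        rw [h] at this
        omega
  · have hp2 : 2 < p := by
      rcases hp.two_le.lt_or_eq with h | h
      · exact h
      · rw [← h] at hodd
        exact absurd hodd (by decide)
    have hc : ∀ x : ℕ, x.gcd (x + 1) = 1 := fun x => by simp
    have hn1 : ¬ p ∣ 1 := fun h => by
      have := Nat.le_of_dvd one_pos h
      omega
    have hn2 : ¬ p ∣ 2 := fun h => by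
      have := Nat.le_of_dvd two_pos h
      omega
    by_cases h1 : p ∣ D + 1
    · refine ⟨D + 2, D + 2 + 1, by omega, by omega, by omega, by omega, fun h => ?_, fun h => ?_,
        hc _⟩
      · exact hn1 ((Nat.dvd_add_right h1).1 h)
      · exact hn2 ((Nat.dvd_add_right h1).1 h)
    · by_cases h2 : p ∣ D + 2
      · refine ⟨D + 3, D + 3 + 1, by omega, by omega, by omega, by omega, fun h => ?_, fun h => ?_,
          hc _⟩
        · exact hn1 ((Nat.dvd_add_right h2).1 h)
        · exact hn2 ((Nat.dvd_add_right h2).1 h)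
      · exact ⟨D + 1, D + 1 + 1, by omega, by omega, by omega, by omega, h1, h2, hc _⟩

theorem ppr (n r : ℕ) :
    (∃ D : ℕ, ∀ d : Fin r → ℕ, (∀ i, D < d i) → DivX (∏ i, d i) (Fin (n + r + 1)) r d) ↔
    ∃ D : ℕ, ∀ (p s : ℕ) (d : Fin r → ℕ), p.Prime → (∀ i, D < d i) →
      (∀ i, (∃ k, d i = p ^ k) ∨ d i ≤ D * (D + 4)) → p ^ s ∣ ∏ i, d i →
      DivX (p ^ s) (Fin (n + r + 1)) r d := by
  classical
  constructor
  · rintro ⟨D, hD⟩
    exact ⟨D, fun p s d _ hd _ hs => divX_of_dvd hs (hD d hd)⟩
  · rintro ⟨D, hD⟩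
    choose B hB using coins
    let T : ℕ := (Finset.range (D + 5) ×ˢ Finset.range (D + 5)).sup fun x => B x.1 x.2
    refine ⟨max D (D * (T + 1)), fun d hd => ?_⟩
    have hd0 : ∀ i, 0 < d i := fun i => (Nat.zero_le _).trans_lt (hd i)
    refine divX_of_pow _ (fun p s hp hs hps => ?_) (Finset.prod_pos fun i _ => hd0 i)
    choose k m hm hdk using fun i => Nat.exists_eq_pow_mul_and_not_dvd (hd0 i).ne' p hp.one_lt.ne'
    have hm0 : ∀ i, 0 < m i := fun i => Nat.pos_of_ne_zero fun h => hm i (by rw [h]; exact dvd_zero _)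
    have hsk : p ^ s ∣ ∏ i, p ^ k i := by
      have h1 : ∏ i, d i = (∏ i, p ^ k i) * ∏ i, m i := by
        rw [← Finset.prod_mul_distrib]
        exact Finset.prod_congr rfl fun i _ => hdk i
      rw [h1] at hps
      refine (Nat.Coprime.pow_left s ?_).dvd_of_dvd_mul_right hps
      exact Nat.Coprime.prod_right fun i _ => (Nat.Prime.coprime_iff_not_dvd hp).2 (hm i)
    have hadd := fun (d : Fin r → ℕ) (i : Fin r) (a b : ℕ)
      (h1 : DivX (p ^ s) (Fin (n + r + 1)) r (update d i a))
      (h2 : DivX (p ^ s) (Fin (n + r + 1)) r (update d i b)) => divX_add d i a b h1 h2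
    refine gen (P := fun d => DivX (p ^ s) (Fin (n + r + 1)) r d) hadd
      (fun i => {y | (D < p ^ k i ∧ y = p ^ k i) ∨
        (p ^ k i ≤ D ∧ ∃ x, D < x ∧ x ≤ D + 4 ∧ y = p ^ k i * x)}) (fun e he => ?_) d fun i => ?_
    · have hpk : ∀ i, 1 ≤ p ^ k i := fun i => Nat.one_le_pow _ _ hp.pos
      refine hD p s e hp (fun i => ?_) (fun i => ?_) (hsk.trans ?_)
      · rcases he i with ⟨h1, h2⟩ | ⟨h1, x, h2, h3, h4⟩
        · rwa [h2]
        · rw [h4]
          exact h2.trans_le (Nat.le_mul_of_pos_left _ (hpk i))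
      · rcases he i with ⟨h1, h2⟩ | ⟨h1, x, h2, h3, h4⟩
        · exact Or.inl ⟨_, h2⟩
        · rw [h4]
          exact Or.inr (Nat.mul_le_mul h1 h3)
      · refine Finset.prod_dvd_prod_of_dvd _ _ fun i _ => ?_
        rcases he i with ⟨h1, h2⟩ | ⟨h1, x, h2, h3, h4⟩
        · rw [h2]
        · rw [h4]
          exact dvd_mul_right _ _
    · rcases lt_or_ge D (p ^ k i) with h | h
      · obtain ⟨m', hm'⟩ := Nat.exists_eq_succ_of_ne_zero (hm0 i).ne'
        rw [hdk i, hm', mul_comm]
        exact semi_mul _ (AddSubsemigroup.subset_closure (Or.inl ⟨h, rfl⟩)) m'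
      · obtain ⟨a, b, ha1, ha2, hb1, hb2, hpa, hpb, hab⟩ := two_coprime D p hp
        have hT : B a b ≤ T := Finset.le_sup (f := fun x : ℕ × ℕ => B x.1 x.2)
          (show (a, b) ∈ Finset.range (D + 5) ×ˢ Finset.range (D + 5) by
            simp only [Finset.mem_product, Finset.mem_range]
            omega)
        have hmT : T < m i := by
          by_contra hc
          have h1 : d i ≤ D * (T + 1) := by
            rw [hdk i]
            exact Nat.mul_le_mul h (by omega)
          have h2 := (le_max_right D (D * (T + 1))).trans_lt (hd i)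
          omega
        obtain ⟨u, v, huv⟩ := hB a b (m i) (hT.trans hmT.le) (by rw [hab]; exact one_dvd _)
        have huv0 : 0 < u + v := by
          by_contra hc
          have h1 : u = 0 := by omega
          have h2 : v = 0 := by omega
          rw [h1, h2] at huv
          have := hm0 i
          omega
        have h1 : d i = u * (p ^ k i * a) + v * (p ^ k i * b) := by
          rw [hdk i, huv]
          ring
        rw [h1]
        exact semi_two _ (AddSubsemigroup.subset_closure (Or.inr ⟨h, a, ha1, ha2, rfl⟩))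
          (AddSubsemigroup.subset_closure (Or.inr ⟨h, b, hb1, hb2, rfl⟩)) u v huv0

end Pool.Agent.Q76.DV
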